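import Pool.Agent.Lib.KV.SpecL

/-! # KV, block L, module Acu (helper24) -/

set_option autoImplicit false

open Set Filter Topology Metric

namespace KV

open KP

namespace AcuAux

/-- The point `pt 0 e_j`. -/
noncomputable def ej (m k : ℕ) (j : Fin k) : Cn (m + k) := pt (0 : Ix m k → ℝ) (Pi.single j 1)

theorem pt_sub {m k : ℕ} (x : Ix m k → ℝ) (v w : Fin k → ℝ) :
    pt x (v + w) - pt x v = pt (0 : Ix m k → ℝ) w := by
  funext i
  refine Fin.addCases (fun a => ?_) (fun b => ?_) i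
  · simp [pt, Fin.append_left]
  · simp only [pt, Pi.sub_apply, Fin.append_right, Pi.add_apply, Complex.ofReal_add, Pi.zero_apply,
      Complex.ofReal_zero]
    ring

theorem pt_sum {m k : ℕ} (w : Fin k → ℝ) :
    pt (0 : Ix m k → ℝ) w = ∑ j, w j • ej m k j := by
  funext i
  rw [Finset.sum_apply]
  refine Fin.addCases (fun a => ?_) (fun b => ?_) i
  · have h1 : ∀ j, (w j • ej m k j) (Fin.castAdd k a) = 0 := by
      intro j
      simp [ej, pt, Fin.append_left]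
    rw [Finset.sum_congr rfl fun j _ => h1 j]
    simp [pt, Fin.append_left]
  · have h1 : ∀ j, (w j • ej m k j) (Fin.natAdd m b) =
        if j = b then (w b : ℂ) * Complex.I else 0 := by
      intro j
      by_cases hj : j = b
      · subst hj
        simp [ej, pt, Fin.append_right]
      · have h2 : (Pi.single j (1 : ℝ) : Fin k → ℝ) b = 0 := by
          rw [Pi.single_apply, if_neg (Ne.symm hj)]
        simp [ej, pt, Fin.append_right, h2, hj]
    rw [Finset.sum_congr rfl fun j _ => h1 j, Finset.sum_ite_eq' Finset.univ b]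
    simp [pt, Fin.append_right]

theorem norm_pt {m k : ℕ} (w : Fin k → ℝ) : ‖pt (0 : Ix m k → ℝ) w‖ ≤ ‖w‖ := by
  rw [pi_norm_le_iff_of_nonneg (norm_nonneg _)]
  intro i
  refine Fin.addCases (fun a => ?_) (fun b => ?_) i
  · simp [pt, Fin.append_left]
  · simp only [pt, Fin.append_right, Pi.zero_apply, Complex.ofReal_zero, zero_add, norm_mul,
      Complex.norm_I, mul_one, Complex.norm_real]
    exact norm_le_pi_norm w b

theorem continuous_pt {m k : ℕ} :
    Continuous fun p : (Ix m k → ℝ) × (Fin k → ℝ) => pt p.1 p.2 := by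
  refine continuous_pi fun i => ?_
  refine Fin.addCases (fun a => ?_) (fun b => ?_) i
  · simp only [pt, Fin.append_left]
    fun_prop
  · simp only [pt, Fin.append_right]
    fun_prop

end AcuAux

open AcuAux in
theorem tAcu (h1 : S_Sup) : S_Acu := by
  intro m k A O h hNF x0 hx0
  obtain ⟨Φ, hΦ, -, a, ha, r, hr, hsup⟩ := h1 m k A O h hNF x0 hx0
  have hstr := hΦ.hasStrictFDerivAt (n := 2) (by norm_num)
  obtain ⟨L, hL⟩ : ∃ L : Cn (m + k) →L[ℝ] ℝ, HasStrictFDerivAt Φ L (pt x0 (h x0)) := ⟨_, hstr⟩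
  have hev := hL.isLittleO.def (half_pos ha)
  -- continuity of `(x, ν) ↦ (pt x (h x + ν), pt x (h x))` at `(x0, 0)`
  have hcont : ContinuousAt h x0 := (hNF.ana x0 hx0).continuousAt
  have hc1 : ContinuousAt (fun p : (Ix m k → ℝ) × (Fin k → ℝ) => h p.1) (x0, 0) :=
    ContinuousAt.comp (f := fun p : (Ix m k → ℝ) × (Fin k → ℝ) => p.1) (g := h) hcont
      continuousAt_fst
  have hc2 : ContinuousAt (fun p : (Ix m k → ℝ) × (Fin k → ℝ) => h p.1 + p.2) (x0, 0) :=
    hc1.add continuousAt_snd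
  have hc3 : ContinuousAt (fun p : (Ix m k → ℝ) × (Fin k → ℝ) =>
      (pt p.1 (h p.1 + p.2), pt p.1 (h p.1))) (x0, 0) := by
    refine ContinuousAt.prodMk ?_ ?_
    · exact ContinuousAt.comp (g := fun p : (Ix m k → ℝ) × (Fin k → ℝ) => pt p.1 p.2)
        (f := fun p : (Ix m k → ℝ) × (Fin k → ℝ) => (p.1, h p.1 + p.2))
        continuous_pt.continuousAt (continuousAt_fst.prodMk hc2)
    · exact ContinuousAt.comp (g := fun p : (Ix m k → ℝ) × (Fin k → ℝ) => pt p.1 p.2)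
        (f := fun p : (Ix m k → ℝ) × (Fin k → ℝ) => (p.1, h p.1))
        continuous_pt.continuousAt (continuousAt_fst.prodMk hc1)
  have h0 : (pt x0 (h x0 + (0 : Fin k → ℝ)), pt x0 (h x0)) = (pt x0 (h x0), pt x0 (h x0)) := by
    rw [add_zero]
  have hev2 : ∀ᶠ p : (Ix m k → ℝ) × (Fin k → ℝ) in 𝓝 (x0, 0),
      ‖Φ (pt p.1 (h p.1 + p.2)) - Φ (pt p.1 (h p.1)) -
        L (pt p.1 (h p.1 + p.2) - pt p.1 (h p.1))‖ ≤
        a / 2 * ‖pt p.1 (h p.1 + p.2) - pt p.1 (h p.1)‖ := by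
    have h2 : Tendsto (fun p : (Ix m k → ℝ) × (Fin k → ℝ) =>
        (pt p.1 (h p.1 + p.2), pt p.1 (h p.1))) (𝓝 (x0, 0))
        (𝓝 (pt x0 (h x0), pt x0 (h x0))) := by
      have h3 := hc3.tendsto
      rwa [h0] at h3
    exact h2.eventually hev
  have hev3 : ∀ᶠ p : (Ix m k → ℝ) × (Fin k → ℝ) in 𝓝 (x0, 0), ‖h p.1 + p.2 - h x0‖ < r := by
    have h3 : ContinuousAt (fun p : (Ix m k → ℝ) × (Fin k → ℝ) => ‖h p.1 + p.2 - h x0‖)
        (x0, 0) := (hc2.sub continuousAt_const).norm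
    refine h3.eventually_lt continuousAt_const ?_
    simpa using hr
  have hO : ∀ᶠ p : (Ix m k → ℝ) × (Fin k → ℝ) in 𝓝 (x0, 0), p.1 ∈ O ∧ p.1 ∈ ball x0 r := by
    have h3 : ∀ᶠ x in 𝓝 x0, x ∈ O ∧ x ∈ ball x0 r :=
      Filter.inter_mem (hNF.hO.mem_nhds hx0) (ball_mem_nhds x0 hr)
    have h4 : Tendsto (fun p : (Ix m k → ℝ) × (Fin k → ℝ) => p.1) (𝓝 (x0, 0)) (𝓝 x0) :=
      continuousAt_fst
    exact h4.eventually h3
  obtain ⟨ρ, hρ, hball⟩ := Metric.eventually_nhds_iff_ball.1 (hev2.and (hev3.and hO))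
  have hmem : ∀ (x : Ix m k → ℝ) (ν : Fin k → ℝ), x ∈ ball x0 ρ → ‖ν‖ < ρ →
      ((x, ν) : (Ix m k → ℝ) × (Fin k → ℝ)) ∈ ball ((x0, 0) : (Ix m k → ℝ) × (Fin k → ℝ)) ρ := by
    intro x ν hx hν
    rw [mem_ball, Prod.dist_eq, max_lt_iff]
    exact ⟨hx, by rwa [dist_zero_right]⟩
  refine ⟨fun j => - L (ej m k j), a / 2, half_pos ha, ρ, hρ, ?_, ?_⟩
  · intro x hx
    exact (hball (x, 0) (hmem x 0 hx (by rwa [norm_zero]))).2.2.1
  · intro x hx ν hν hA
    obtain ⟨e1, e2, -, e3⟩ := hball (x, ν) (hmem x ν hx hν)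
    simp only at e1 e2 e3
    -- the coefficients
    obtain ⟨c, hc, hcs⟩ : ∃ c : Fin k → ℝ, ‖c‖ ≤ a ∧ ∀ j, c j * ν j = a * |ν j| := by
      refine ⟨fun j => if 0 ≤ ν j then a else -a, ?_, fun j => ?_⟩
      · rw [pi_norm_le_iff_of_nonneg ha.le]
        intro j
        show ‖if 0 ≤ ν j then a else -a‖ ≤ a
        split_ifs
        · rw [Real.norm_eq_abs, abs_of_pos ha]
        · rw [norm_neg, Real.norm_eq_abs, abs_of_pos ha]
      · show (if 0 ≤ ν j then a else -a) * ν j = a * |ν j|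
        split_ifs with hj
        · rw [abs_of_nonneg hj]
        · rw [abs_of_neg (not_le.1 hj)]
          ring
    obtain ⟨b, hb⟩ := hsup x e3 c hc
    have e4 := hb x (h x + ν) (by rwa [mem_ball, dist_eq_norm] at e3) e2 hA
    have e5 : ∑ j, c j * (h x + ν) j = ∑ j, c j * h x j + a * ∑ j, |ν j| := by
      rw [Finset.mul_sum, ← Finset.sum_add_distrib]
      refine Finset.sum_congr rfl fun j _ => ?_
      rw [Pi.add_apply, mul_add, hcs]
    rw [e5] at e4
    have e6 : ‖ν‖ ≤ ∑ j, |ν j| := by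
      rw [pi_norm_le_iff_of_nonneg (Finset.sum_nonneg fun j _ => abs_nonneg _)]
      intro j
      rw [Real.norm_eq_abs]
      exact Finset.single_le_sum (f := fun j => |ν j|) (fun j _ => abs_nonneg _)
        (Finset.mem_univ j)
    rw [pt_sub] at e1
    have e7 : L (pt (0 : Ix m k → ℝ) ν) = ∑ j, ν j * L (ej m k j) := by
      rw [pt_sum, map_sum]
      refine Finset.sum_congr rfl fun j _ => ?_
      rw [map_smul, smul_eq_mul]
    have e8 : ∑ j, (- L (ej m k j)) * ν j = - L (pt (0 : Ix m k → ℝ) ν) := by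
      rw [e7, ← Finset.sum_neg_distrib]
      refine Finset.sum_congr rfl fun j _ => ?_
      ring
    have e9 : a / 2 * ‖pt (0 : Ix m k → ℝ) ν‖ ≤ a / 2 * ‖ν‖ :=
      mul_le_mul_of_nonneg_left (norm_pt ν) (half_pos ha).le
    have e10 := (abs_le.1 ((Real.norm_eq_abs _).symm ▸ (e1.trans e9))).1
    have e11 : a * ‖ν‖ ≤ a * ∑ j, |ν j| := mul_le_mul_of_nonneg_left e6 ha.le
    show a / 2 * ‖ν‖ ≤ ∑ j, (- L (ej m k j)) * ν j
    rw [e8]
    linarith

end KV
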