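import Pool.Agent.Lib.KV.SpecL

set_option autoImplicit false

open Set Filter Topology Metric

namespace KV

open KP

namespace BWhAux

private theorem rpl_self {m k : ℕ} (x : Ix m k → ℝ) : rpl x (fun j => x (Sum.inr j)) = x := by
  unfold rpl
  ext s
  cases s <;> rfl

private theorem pt_rpl {m k : ℕ} (x : Ix m k → ℝ) (u v : Ek k) :
    pt (rpl x (fun j => u j)) (fun j => v j) = Fin.append (zof x) (cpt u v) := rfl

private theorem rpl_sub {m k : ℕ} (x : Ix m k → ℝ) (u u' : Ek k) :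
    ‖rpl x (fun j => u j) - rpl x (fun j => u' j)‖ ≤ ‖u - u'‖ := by
  rw [pi_norm_le_iff_of_nonneg (norm_nonneg _)]
  intro s
  cases s with
  | inl i =>
    have : (rpl x (fun j => u j) - rpl x (fun j => u' j)) (Sum.inl i) = 0 := by
      unfold rpl
      simp
    rw [this, norm_zero]
    exact norm_nonneg _
  | inr j =>
    have : (rpl x (fun j => u j) - rpl x (fun j => u' j)) (Sum.inr j) = (u - u') j := rfl
    rw [this]
    exact PiLp.norm_apply_le (u - u') j

private theorem norm_le_sup {k : ℕ} (v : Ek k) (M : ℝ) (hM : 0 ≤ M) (h : ∀ j, |v j| ≤ M) :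
    ‖v‖ ≤ (k + 1) * M := by
  rw [EuclideanSpace.norm_eq]
  have h1 : ∑ i, ‖v i‖ ^ 2 ≤ ((k + 1) * M) ^ 2 := by
    calc ∑ i, ‖v i‖ ^ 2 ≤ ∑ _i : Fin k, M ^ 2 := by
          refine Finset.sum_le_sum fun i _ => ?_
          exact pow_le_pow_left₀ (norm_nonneg _) (h i) 2
      _ = k * M ^ 2 := by
          rw [Finset.sum_const, Finset.card_univ, Fintype.card_fin, nsmul_eq_mul]
      _ ≤ ((k + 1) * M) ^ 2 := by
          rw [mul_pow]
          have hk : (0 : ℝ) ≤ k := Nat.cast_nonneg k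
          have : (k : ℝ) ≤ (k + 1) ^ 2 := by nlinarith
          exact mul_le_mul_of_nonneg_right this (sq_nonneg M)
  exact (Real.sqrt_le_sqrt h1).trans (le_of_eq (Real.sqrt_sq (by positivity)))

private theorem append_dist {m k : ℕ} (z : Cn m) (w w' : Cn k) :
    dist (Fin.append z w) (Fin.append z w') ≤ dist w w' := by
  rw [dist_pi_le_iff dist_nonneg]
  intro i
  refine Fin.addCases (fun i => ?_) (fun j => ?_) i
  · rw [Fin.append_left, Fin.append_left, dist_self]
    exact dist_nonneg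
  · rw [Fin.append_right, Fin.append_right]
    exact dist_le_pi_dist w w' j

private theorem append_cont {m k : ℕ} (z : Cn m) : Continuous (fun w : Cn k => Fin.append z w) := by
  refine continuous_pi fun i => ?_
  refine Fin.addCases (fun i => ?_) (fun j => ?_) i
  · simp only [Fin.append_left]
    exact continuous_const
  · simp only [Fin.append_right]
    exact continuous_apply j

private theorem tau_mono {n : ℕ} {A W W' : Set (Cn n)} (h : TauIn A W) (hW : W' ⊆ W) :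
    TauIn A W' := fun f g h1 h2 h3 h4 h5 h6 => h f g h1 h2 h3 h4 (h5.mono_right hW) h6

private theorem rpl_contDiff {m k : ℕ} (x : Ix m k → ℝ) :
    ContDiff ℝ 2 (fun u : Ek k => rpl x (fun j => u j)) := by
  rw [contDiff_pi]
  intro s
  cases s with
  | inl i =>
    unfold rpl
    exact contDiff_const
  | inr j =>
    unfold rpl
    exact contDiff_euclidean.1 contDiff_id j

end BWhAux

open BWhAux in
theorem tBWh (h1 : S_Rtr) (h2 : S_Qua) (h3 : S_TauS) : S_BWh := by
  intro m k A O h hNF hT x2 δ C Y hδ hC hO hY hYτ hYt xs hxs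
  have hxsO : xs ∈ O := hO hxs
  obtain ⟨r, hr, hTr⟩ := hT xs hxsO
  obtain ⟨x0, hx0⟩ : ∃ x0 : Ek k, x0 = WithLp.toLp 2 fun j => xs (Sum.inr j) := ⟨_, rfl⟩
  rw [← hx0]
  have hk0 : (0 : ℝ) < k + 1 := by positivity
  have hx0' : rpl xs (fun j => x0 j) = xs := by
    rw [hx0]
    exact rpl_self xs
  -- the function in the slice
  obtain ⟨f, hf⟩ : ∃ f : Ek k → Ek k, f = fun u => WithLp.toLp 2 (h (rpl xs (fun j => u j))) :=
    ⟨_, rfl⟩
  have hfC : ContDiffAt ℝ 2 f x0 := by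
    have e1 : ContDiffAt ℝ 2 h (rpl xs (fun j => x0 j)) := by
      rw [hx0']
      exact (hNF.ana xs hxsO).contDiffAt
    have e2 : ContDiffAt ℝ 2 (fun u : Ek k => h (rpl xs (fun j => u j))) x0 :=
      ContDiffAt.comp x0 e1 (rpl_contDiff xs).contDiffAt
    rw [hf]
    rw [contDiffAt_euclidean]
    intro i
    exact contDiffAt_pi.1 e2 i
  obtain ⟨C1, hC1, r1, hr1, hQ⟩ := h2 (Ek k) (Ek k) f x0 hfC
  -- radius
  obtain ⟨ρ0, hρ0, hρ0'⟩ : ∃ ρ0 > 0, ball xs ρ0 ⊆ ball x2 δ :=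
    Metric.isOpen_iff.1 isOpen_ball xs hxs
  obtain ⟨ρ1, hρ1⟩ : ∃ ρ1 : ℝ, ρ1 = min r1 (ρ0 / 2) := ⟨_, rfl⟩
  have hρ1p : 0 < ρ1 := by
    rw [hρ1]
    exact lt_min hr1 (by linarith)
  have hball : ∀ u ∈ closedBall x0 ρ1, rpl xs (fun j => u j) ∈ ball x2 δ := by
    intro u hu
    apply hρ0'
    rw [mem_closedBall, dist_eq_norm] at hu
    rw [mem_ball, dist_eq_norm]
    have e1 := rpl_sub xs u x0
    rw [hx0'] at e1
    have e2 : ρ1 ≤ ρ0 / 2 := by rw [hρ1]; exact min_le_right _ _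
    linarith
  obtain ⟨P, hP1, hP2, hP3⟩ := h1 k x0 ρ1 hρ1p
  have hPb : ∀ u, rpl xs (fun j => P u j) ∈ ball x2 δ := fun u => hball _ (hP1 u)
  have hx0b : x0 ∈ closedBall x0 ρ1 := mem_closedBall_self hρ1p.le
  have hrP : ∀ u u', ‖rpl xs (fun j => P u j) - rpl xs (fun j => P u' j)‖ ≤ ‖u - u'‖ :=
    fun u u' => (rpl_sub xs (P u) (P u')).trans (hP3 u u')
  -- Lipschitz property of h
  have hLip : ∀ x ∈ ball x2 δ, ∀ x' ∈ ball x2 δ,
      ‖h x - h x'‖ ≤ 1 / (100 * (k + 1)) * ‖x - x'‖ := by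
    intro x hx x' hx'
    exact (convex_ball x2 δ).norm_image_sub_le_of_norm_fderiv_le
      (fun z hz => (hNF.ana z (hO hz)).differentiableAt) (fun z hz => hNF.sm z (hO hz)) hx' hx
  obtain ⟨δ1, hδ1, hYδ1⟩ := hYτ (1 / (100 * (k + 1))) (by positivity)
  obtain ⟨C', hC'⟩ : ∃ C' : ℝ, C' = max 1 (max ((k + 1) * C) C1) := ⟨_, rfl⟩
  have hC'1 : 1 ≤ C' := by rw [hC']; exact le_max_left _ _
  have hC'2 : (k + 1) * C ≤ C' := by
    rw [hC']; exact (le_max_left _ _).trans (le_max_right _ _)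
  have hC'3 : C1 ≤ C' := by
    rw [hC']; exact (le_max_right _ _).trans (le_max_right _ _)
  obtain ⟨φ, hφ⟩ : ∃ φ : Ek k → Ek k,
      φ = fun u => WithLp.toLp 2 (h (rpl xs (fun j => P u j))) := ⟨_, rfl⟩
  obtain ⟨y, hy⟩ : ∃ y : Ek k → ℝ → Ek k,
      y = fun u t => WithLp.toLp 2 (fun j => Y j (cns t (rpl xs (fun j => P u j)))) := ⟨_, rfl⟩
  have hφj : ∀ u j, φ u j = h (rpl xs (fun j => P u j)) j := fun u j => by rw [hφ]
  have hyj : ∀ u t j, y u t j = Y j (cns t (rpl xs (fun j => P u j))) := fun u t j => by rw [hy]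
  have hφx0 : ∀ j, φ x0 j = h xs j := by
    intro j
    rw [hφj, hP2 x0 hx0b, hx0']
  refine ⟨φ, y, ρ1, min δ δ1, r, C', ⟨?_, ?_, hρ1p, lt_min hδ hδ1, hr, hC'1, ?_, ?_, ?_, ?_, ?_,
    ?_, ?_⟩, hφx0⟩
  · exact hNF.opn.preimage (append_cont (zof xs))
  · refine tau_mono (h3 m k A _ (zof xs) hTr) ?_
    intro w hw
    have e1 : pt xs (h xs) = Fin.append (zof xs) (cpt x0 (φ x0)) := by
      rw [← pt_rpl, hx0']
      congr 1
      ext j
      exact (hφx0 j).symm
    change Fin.append (zof xs) w ∈ ball (pt xs (h xs)) r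
    rw [e1, mem_ball]
    exact (append_dist _ _ _).trans_lt hw
  · intro x x'
    have e1 : ∀ j, |(φ x - φ x') j| ≤ 1 / (100 * (k + 1)) * ‖x - x'‖ := by
      intro j
      have e2 := hLip _ (hPb x) _ (hPb x')
      have e3 : (φ x - φ x') j = (h (rpl xs (fun j => P x j)) - h (rpl xs (fun j => P x' j))) j := by
        rw [PiLp.sub_apply, hφj, hφj, Pi.sub_apply]
      rw [e3, ← Real.norm_eq_abs]
      refine (norm_le_pi_norm _ j).trans (e2.trans ?_)
      exact mul_le_mul_of_nonneg_left (hrP x x') (by positivity)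
    refine (norm_le_sup _ _ (by positivity) e1).trans ?_
    have e4 : ((k : ℝ) + 1) * (1 / (100 * (k + 1)) * ‖x - x'‖) = 1 / 100 * ‖x - x'‖ := by
      field_simp
    rw [e4]
    have := norm_nonneg (x - x')
    linarith
  · refine ⟨fderiv ℝ f x0, fun x hx x' hx' => ?_⟩
    have e1 : closedBall x0 ρ1 ⊆ closedBall x0 r1 :=
      closedBall_subset_closedBall (by rw [hρ1]; exact min_le_left _ _)
    have e2 := hQ x (e1 hx) x' (e1 hx')
    have e3 : φ x = f x := by
      rw [hφ, hf]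
      simp only [hP2 x hx]
    have e4 : φ x' = f x' := by
      rw [hφ, hf]
      simp only [hP2 x' hx']
    rw [e3, e4]
    refine e2.trans ?_
    gcongr
  · intro x x' t ht
    have e1 : ∀ j, |(y x t - y x' t) j| ≤ 1 / (100 * (k + 1)) * ‖x - x'‖ := by
      intro j
      have e2 := hYδ1 j _ (hPb x) _ (hPb x') t ⟨ht.1, ht.2.trans_le (min_le_right _ _)⟩
      rw [PiLp.sub_apply, hyj, hyj]
      refine e2.trans ?_
      exact mul_le_mul_of_nonneg_left (hrP x x') (by positivity)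
    refine (norm_le_sup _ _ (by positivity) e1).trans ?_
    have e4 : ((k : ℝ) + 1) * (1 / (100 * (k + 1)) * ‖x - x'‖) = 1 / 100 * ‖x - x'‖ := by
      field_simp
    rw [e4]
    have := norm_nonneg (x - x')
    linarith
  · intro τ hτ
    obtain ⟨δ', hδ', hYδ'⟩ := hYτ (τ / (k + 1)) (by positivity)
    refine ⟨δ', hδ', fun x x' t ht => ?_⟩
    have e1 : ∀ j, |(y x t - y x' t) j| ≤ τ / (k + 1) * ‖x - x'‖ := by
      intro j
      have e2 := hYδ' j _ (hPb x) _ (hPb x') t ht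
      rw [PiLp.sub_apply, hyj, hyj]
      refine e2.trans ?_
      exact mul_le_mul_of_nonneg_left (hrP x x') (by positivity)
    refine (norm_le_sup _ _ (by positivity) e1).trans (le_of_eq ?_)
    field_simp
  · intro x t ht t' ht'
    have e1 : ∀ j, |(y x t - y x t') j| ≤ C * |t - t'| := by
      intro j
      rw [PiLp.sub_apply, hyj, hyj]
      exact hYt j _ (hPb x) t ⟨ht.1, ht.2.trans_le (min_le_left _ _)⟩ t'
        ⟨ht'.1, ht'.2.trans_le (min_le_left _ _)⟩
    refine (norm_le_sup _ _ (by positivity) e1).trans ?_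
    rw [← mul_assoc]
    gcongr
  · intro x t ht
    have ht0 : 0 < t := ht.1
    have e1 : ∀ j, |y x t j| ≤ C * t := by
      intro j
      rw [hyj]
      exact (hY _ (hPb x) t ⟨ht.1, ht.2.trans_le (min_le_left _ _)⟩).1 j
    refine (norm_le_sup _ _ (by positivity) e1).trans ?_
    rw [← mul_assoc]
    gcongr
  · intro x hx t ht
    have e1 := (hY _ (hball x hx) t ⟨ht.1, ht.2.trans_le (min_le_left _ _)⟩).2
    change Fin.append (zof xs) (cpt x (φ x + y x t)) ∈ A
    rw [← pt_rpl]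
    have e2 : (fun j => (φ x + y x t) j) =
        h (rpl xs (fun j => x j)) + fun j => Y j (cns t (rpl xs (fun j => x j))) := by
      ext j
      rw [PiLp.add_apply, hφj, hyj, hP2 x hx, Pi.add_apply]
    rw [e2]
    exact e1

end KV
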