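import Pool.Agent.Lib.KV.SpecL

set_option autoImplicit false

open Set Filter Topology Metric

namespace KV

namespace HesAux

theorem d2le {E : Type} [NormedAddCommGroup E] [NormedSpace ℝ E] (F : E → ℝ) (x0 : E) (η : ℝ)
    (hη : 0 < η) (hF : ContDiffAt ℝ 2 F x0)
    (hm : ∀ᶠ x in 𝓝 x0, F x + η * ‖x - x0‖ ^ 2 ≤ F x0) (v : E) :
    fderiv ℝ (fderiv ℝ F) x0 v v ≤ -2 * η * ‖v‖ ^ 2 := by
  by_contra hlt
  push Not at hlt
  set Q := fderiv ℝ (fderiv ℝ F) x0 v v with hQ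
  obtain ⟨Q', hQ1, hQ2⟩ := exists_between hlt
  have hloc : IsLocalMax F x0 := hm.mono (fun x hx => by nlinarith [sq_nonneg ‖x - x0‖])
  have h0 : fderiv ℝ F x0 = 0 := hloc.fderiv_eq_zero
  have hc1 : ContDiffAt ℝ 1 (fderiv ℝ F) x0 := hF.fderiv_right (by norm_num)
  have hd : HasFDerivAt (fderiv ℝ F) (fderiv ℝ (fderiv ℝ F) x0) x0 :=
    (hc1.differentiableAt (by norm_num)).hasFDerivAt
  have hline : ∀ t : ℝ, HasDerivAt (fun s : ℝ => x0 + s • v) v t := by
    intro t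
    have := ((hasDerivAt_id t).smul_const v).const_add x0
    simpa using this
  have hder : HasDerivAt (fun t : ℝ => fderiv ℝ F (x0 + t • v) v) Q 0 := by
    have h1 : HasFDerivAt (fderiv ℝ F) (fderiv ℝ (fderiv ℝ F) x0) (x0 + (0 : ℝ) • v) := by
      simpa using hd
    have h2 := h1.comp_hasDerivAt (0 : ℝ) (hline 0)
    have h3 := (h2.clm_apply (hasDerivAt_const (0 : ℝ) v))
    simpa [Function.comp_def, hQ] using h3
  have hs := hder.tendsto_slope_zero_right
  have he1 : ∀ᶠ t in 𝓝[>] (0 : ℝ), Q' < t⁻¹ • (fderiv ℝ F (x0 + (0 + t) • v) v -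
      fderiv ℝ F (x0 + (0 : ℝ) • v) v) := hs.eventually (lt_mem_nhds hQ2)
  have hct : Tendsto (fun t : ℝ => x0 + t • v) (𝓝 0) (𝓝 x0) := by
    have : Continuous (fun t : ℝ => x0 + t • v) := by fun_prop
    simpa using this.tendsto 0
  have hdiff : ∀ᶠ x in 𝓝 x0, DifferentiableAt ℝ F x := by
    filter_upwards [hF.eventually (by simp)] with x hx using hx.differentiableAt (by norm_num)
  have he2 : ∀ᶠ t in 𝓝 (0 : ℝ), DifferentiableAt ℝ F (x0 + t • v) := hct.eventually hdiff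
  have he3 : ∀ᶠ t in 𝓝 (0 : ℝ), F (x0 + t • v) + η * ‖x0 + t • v - x0‖ ^ 2 ≤ F x0 :=
    hct.eventually hm
  rw [eventually_nhdsWithin_iff] at he1
  obtain ⟨δ, hδ, hb⟩ := Metric.eventually_nhds_iff_ball.1 (he1.and (he2.and he3))
  have hin : ∀ t ∈ Icc (0 : ℝ) (δ / 2), t ∈ ball (0 : ℝ) δ := by
    intro t ht
    rw [mem_ball, Real.dist_eq, sub_zero, abs_of_nonneg ht.1]
    linarith [ht.2]
  have hgd : ∀ t ∈ Icc (0 : ℝ) (δ / 2), HasDerivAt (fun s : ℝ => F (x0 + s • v) - Q' * s ^ 2 / 2)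
      (fderiv ℝ F (x0 + t • v) v - Q' * t) t := by
    intro t ht
    have h1 := ((hb t (hin t ht)).2.1).hasFDerivAt.comp_hasDerivAt t (hline t)
    have h2 : HasDerivAt (fun s : ℝ => Q' * s ^ 2 / 2) (Q' * t) t := by
      have := (((hasDerivAt_id t).pow 2).const_mul Q').div_const 2
      refine this.congr_deriv ?_
      simp
      ring
    exact h1.sub h2
  have hmono : MonotoneOn (fun s : ℝ => F (x0 + s • v) - Q' * s ^ 2 / 2) (Icc 0 (δ / 2)) := by
    refine monotoneOn_of_deriv_nonneg (convex_Icc _ _) (fun t ht => (hgd t ht).continuousAt.continuousWithinAt)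
      (fun t ht => (hgd t (interior_subset ht)).differentiableAt.differentiableWithinAt) (fun t ht => ?_)
    have ht' : t ∈ Icc (0 : ℝ) (δ / 2) := interior_subset ht
    rw [(hgd t ht').deriv]
    rw [interior_Icc] at ht
    have h1 := (hb t (hin t ht')).1 ht.1
    rw [zero_add, zero_smul, add_zero, h0] at h1
    simp only [zero_apply, sub_zero, smul_eq_mul] at h1
    have h2 : Q' * t < fderiv ℝ F (x0 + t • v) v := by
      have := mul_lt_mul_of_pos_left h1 ht.1
      rw [← mul_assoc, mul_inv_cancel₀ ht.1.ne', one_mul] at this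
      linarith
    linarith
  have h4 := hmono (left_mem_Icc.2 (by linarith : (0 : ℝ) ≤ δ / 2)) (right_mem_Icc.2 (by linarith : (0 : ℝ) ≤ δ / 2))
    (by linarith : (0 : ℝ) ≤ δ / 2)
  have h5 := (hb (δ / 2) (hin _ (right_mem_Icc.2 (by linarith)))).2.2
  simp only [zero_smul, add_zero] at h4
  rw [add_sub_cancel_left, norm_smul, Real.norm_eq_abs, abs_of_pos (by linarith : 0 < δ / 2)] at h5
  have h6 : 0 < (δ / 2) ^ 2 := by positivity
  have h7 : 0 < (δ / 2) ^ 2 * (Q' - (-2 * η * ‖v‖ ^ 2)) := mul_pos h6 (by linarith)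
  nlinarith

end HesAux

open HesAux

theorem tHes : S_Hes := by
  intro ι κ _ _ _ F0 F1 x0 η hη hF0 hF1 hm ε hε
  classical
  -- derivatives
  have hc0 : ContDiffAt ℝ 1 (fderiv ℝ F0) x0 := hF0.fderiv_right (by norm_num)
  have hF1j : ∀ j, ContDiffAt ℝ 2 (fun x => F1 x j) x0 := fun j => contDiffAt_pi.1 hF1 j
  have hc1 : ∀ j, ContDiffAt ℝ 1 (fderiv ℝ (fun x => F1 x j)) x0 :=
    fun j => (hF1j j).fderiv_right (by norm_num)
  have hs0 := (hc0.hasStrictFDerivAt (by norm_num)).isLittleO.def (half_pos hη)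
  have hs1 : ∀ j, ∃ K : ℝ, 0 < K ∧ ∀ᶠ p in 𝓝 (x0, x0),
      ‖fderiv ℝ (fun x => F1 x j) p.1 - fderiv ℝ (fun x => F1 x j) p.2‖ ≤ K * ‖p.1 - p.2‖ := by
    intro j
    have h1 := ((hc1 j).hasStrictFDerivAt (by norm_num)).isLittleO.def (zero_lt_one)
    refine ⟨‖fderiv ℝ (fderiv ℝ (fun x => F1 x j)) x0‖ + 1, by positivity, ?_⟩
    filter_upwards [h1] with p hp
    have h2 := (fderiv ℝ (fderiv ℝ (fun x => F1 x j)) x0).le_opNorm (p.1 - p.2)
    calc ‖fderiv ℝ (fun x => F1 x j) p.1 - fderiv ℝ (fun x => F1 x j) p.2‖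
        = ‖(fderiv ℝ (fun x => F1 x j) p.1 - fderiv ℝ (fun x => F1 x j) p.2 -
            (fderiv ℝ (fderiv ℝ (fun x => F1 x j)) x0) (p.1 - p.2)) +
            (fderiv ℝ (fderiv ℝ (fun x => F1 x j)) x0) (p.1 - p.2)‖ := by
              rw [sub_add_cancel]
      _ ≤ _ := norm_add_le _ _
      _ ≤ (‖fderiv ℝ (fderiv ℝ (fun x => F1 x j)) x0‖ + 1) * ‖p.1 - p.2‖ := by
        rw [add_mul, one_mul]
        rw [one_mul] at hp
        linarith
  choose K hK hs1 using hs1
  have hdiff0 : ∀ᶠ x in 𝓝 x0, DifferentiableAt ℝ F0 x := by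
    filter_upwards [hF0.eventually (by simp)] with x hx using hx.differentiableAt (by norm_num)
  have hdiff1 : ∀ᶠ x in 𝓝 x0, ∀ j, DifferentiableAt ℝ (fun x => F1 x j) x := by
    rw [eventually_all]
    intro j
    filter_upwards [(hF1j j).eventually (by simp)] with x hx using hx.differentiableAt (by norm_num)
  have hloc : IsLocalMax F0 x0 := hm.mono (fun x hx => by nlinarith [sq_nonneg ‖x - x0‖])
  have h00 : fderiv ℝ F0 x0 = 0 := hloc.fderiv_eq_zero
  have hb0 : ∀ᶠ x in 𝓝 x0, ‖fderiv ℝ F0 x‖ < ε / 2 := by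
    have h1 : ContinuousAt (fun x => ‖fderiv ℝ F0 x‖) x0 := hc0.continuousAt.norm
    have h2 : ‖fderiv ℝ F0 x0‖ < ε / 2 := by rw [h00, norm_zero]; linarith
    exact h1.eventually (gt_mem_nhds h2)
  have hb1 : ∀ᶠ x in 𝓝 x0, ∀ j, ‖fderiv ℝ (fun x => F1 x j) x‖ <
      ‖fderiv ℝ (fun x => F1 x j) x0‖ + 1 := by
    rw [eventually_all]
    intro j
    have h1 : ContinuousAt (fun x => ‖fderiv ℝ (fun x => F1 x j) x‖) x0 :=
      (hc1 j).continuousAt.norm
    exact h1.eventually (gt_mem_nhds (by linarith))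
  -- radii
  obtain ⟨r1, hr1, H1⟩ := Metric.eventually_nhds_iff_ball.1 hs0
  obtain ⟨r2, hr2, H2⟩ := Metric.eventually_nhds_iff_ball.1 ((eventually_all (l := 𝓝 (x0, x0))).2 hs1)
  obtain ⟨r3, hr3, H3⟩ := Metric.eventually_nhds_iff_ball.1 (hdiff0.and (hdiff1.and (hb0.and hb1)))
  set r := min r1 (min r2 r3) with hr
  have hrpos : 0 < r := lt_min hr1 (lt_min hr2 hr3)
  set SK : ℝ := ∑ j, K j with hSK
  have hSK0 : 0 ≤ SK := Finset.sum_nonneg (fun j _ => (hK j).le)
  set SM : ℝ := ∑ j, (‖fderiv ℝ (fun x => F1 x j) x0‖ + 1) with hSM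
  have hSM0 : 0 ≤ SM := Finset.sum_nonneg (fun j _ => by positivity)
  set a : ℝ := min (η / 2 / (SK + 1)) (ε / 2 / (SM + 1)) with ha
  have ha0 : 0 < a := lt_min (by positivity) (by positivity)
  have haK : a * SK ≤ η / 2 := by
    have h1 : a ≤ η / 2 / (SK + 1) := min_le_left _ _
    have h2 : a * (SK + 1) ≤ η / 2 := by rwa [le_div_iff₀ (by positivity)] at h1
    nlinarith
  have haM : a * SM ≤ ε / 2 := by
    have h1 : a ≤ ε / 2 / (SM + 1) := min_le_right _ _
    have h2 : a * (SM + 1) ≤ ε / 2 := by rwa [le_div_iff₀ (by positivity)] at h1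
    nlinarith
  refine ⟨r, hrpos, a, ha0, ?_⟩
  intro x1 hx1 c hc
  have hcj : ∀ j, |c j| ≤ a := fun j => (norm_le_pi_norm c j).trans hc
  have hr1' : ∀ x ∈ ball x0 r, ∀ y ∈ ball x0 r, (x, y) ∈ ball (x0, x0) r1 := by
    intro x hx y hy
    rw [mem_ball, Prod.dist_eq, max_lt_iff]
    exact ⟨(mem_ball.1 hx).trans_le (min_le_left _ _), (mem_ball.1 hy).trans_le (min_le_left _ _)⟩
  have hr2' : ∀ x ∈ ball x0 r, ∀ y ∈ ball x0 r, (x, y) ∈ ball (x0, x0) r2 := by
    intro x hx y hy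
    have h : r ≤ r2 := (min_le_right _ _).trans (min_le_left _ _)
    rw [mem_ball, Prod.dist_eq, max_lt_iff]
    exact ⟨(mem_ball.1 hx).trans_le h, (mem_ball.1 hy).trans_le h⟩
  have hr3' : ∀ x ∈ ball x0 r, x ∈ ball x0 r3 := fun x hx =>
    ball_subset_ball ((min_le_right _ _).trans (min_le_right _ _)) hx
  -- the derivative of G
  set DG : (ι → ℝ) → ((ι → ℝ) →L[ℝ] ℝ) := fun x =>
    fderiv ℝ F0 x + ∑ j, c j • fderiv ℝ (fun x => F1 x j) x with hDG
  have hG : ∀ x ∈ ball x0 r, HasFDerivAt (fun x => F0 x + ∑ j, c j * F1 x j) (DG x) x := by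
    intro x hx
    obtain ⟨h1, h2, -, -⟩ := H3 x (hr3' x hx)
    refine h1.hasFDerivAt.add ?_
    have h3 : ∀ j ∈ (Finset.univ : Finset κ), HasFDerivAt (fun x => c j * F1 x j)
        (c j • fderiv ℝ (fun x => F1 x j) x) x := fun j _ => (h2 j).hasFDerivAt.const_mul (c j)
    exact HasFDerivAt.fun_sum h3
  have hmonoG : ∀ x ∈ ball x0 r, ∀ y ∈ ball x0 r, (DG x - DG y) (x - y) ≤ -η * ‖x - y‖ ^ 2 := by
    intro x hx y hy
    have h1 := H1 (x, y) (hr1' x hx y hy)
    have h2 := H2 (x, y) (hr2' x hx y hy)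
    simp only at h1 h2
    have h3 := d2le F0 x0 η hη hF0 hm (x - y)
    have h4 : (fderiv ℝ F0 x - fderiv ℝ F0 y) (x - y) ≤
        fderiv ℝ (fderiv ℝ F0) x0 (x - y) (x - y) + η / 2 * ‖x - y‖ * ‖x - y‖ := by
      have h5 := (fderiv ℝ F0 x - fderiv ℝ F0 y - fderiv ℝ (fderiv ℝ F0) x0 (x - y)).le_opNorm (x - y)
      have h6 := mul_le_mul_of_nonneg_right h1 (norm_nonneg (x - y))
      have h7 := (le_abs_self _).trans (h5.trans h6)
      rw [sub_apply (fderiv ℝ F0 x - fderiv ℝ F0 y)] at h7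
      linarith
    have h5 : ∀ j, c j * ((fderiv ℝ (fun x => F1 x j) x - fderiv ℝ (fun x => F1 x j) y) (x - y)) ≤
        a * K j * (‖x - y‖ * ‖x - y‖) := by
      intro j
      have h6 := (fderiv ℝ (fun x => F1 x j) x - fderiv ℝ (fun x => F1 x j) y).le_opNorm (x - y)
      have h7 := mul_le_mul_of_nonneg_right (h2 j) (norm_nonneg (x - y))
      have h8 := h6.trans h7
      refine (le_abs_self _).trans ?_
      rw [abs_mul]
      have h9 := mul_le_mul (hcj j) h8 (norm_nonneg _) ha0.le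
      calc |c j| * |(fderiv ℝ (fun x => F1 x j) x - fderiv ℝ (fun x => F1 x j) y) (x - y)|
          ≤ a * (K j * ‖x - y‖ * ‖x - y‖) := h9
        _ = a * K j * (‖x - y‖ * ‖x - y‖) := by ring
    have h6 : (DG x - DG y) (x - y) = (fderiv ℝ F0 x - fderiv ℝ F0 y) (x - y) +
        ∑ j, c j * ((fderiv ℝ (fun x => F1 x j) x - fderiv ℝ (fun x => F1 x j) y) (x - y)) := by
      simp only [hDG, sub_apply, add_apply, sum_apply, smul_apply, smul_eq_mul, mul_sub,
        Finset.sum_sub_distrib]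
      ring
    have h7 : ∑ j, c j * ((fderiv ℝ (fun x => F1 x j) x - fderiv ℝ (fun x => F1 x j) y) (x - y)) ≤
        a * SK * (‖x - y‖ * ‖x - y‖) := by
      refine (Finset.sum_le_sum (fun j _ => h5 j)).trans (le_of_eq ?_)
      rw [hSK, Finset.mul_sum, Finset.sum_mul]
    have h8 := mul_le_mul_of_nonneg_right haK (mul_self_nonneg ‖x - y‖)
    rw [h6]
    nlinarith
  -- choice of b
  refine ⟨fun i => -(DG x1 (Pi.single i 1)), ?_, ?_⟩
  · refine (pi_norm_le_iff_of_nonneg hε.le).2 (fun i => ?_)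
    rw [norm_neg]
    have h1 := (DG x1).le_opNorm (Pi.single i 1)
    have h2 : ‖(Pi.single i 1 : ι → ℝ)‖ ≤ 1 := by
      refine (pi_norm_le_iff_of_nonneg zero_le_one).2 (fun i' => ?_)
      rcases eq_or_ne i' i with rfl | h
      · simp
      · simp [Pi.single_eq_of_ne h]
    obtain ⟨-, -, h3, h4⟩ := H3 x1 (hr3' x1 hx1)
    have h5 : ‖DG x1‖ ≤ ε := by
      refine (norm_add_le _ _).trans ?_
      have h6 : ‖∑ j, c j • fderiv ℝ (fun x => F1 x j) x1‖ ≤ a * SM := by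
        refine (norm_sum_le _ _).trans ?_
        rw [hSM, Finset.mul_sum]
        refine Finset.sum_le_sum (fun j _ => ?_)
        rw [norm_smul]
        exact mul_le_mul (hcj j) (h4 j).le (norm_nonneg _) ha0.le
      linarith
    calc ‖DG x1 (Pi.single i 1)‖ ≤ ‖DG x1‖ * ‖(Pi.single i 1 : ι → ℝ)‖ := h1
      _ ≤ ‖DG x1‖ * 1 := mul_le_mul_of_nonneg_left h2 (norm_nonneg _)
      _ ≤ ε := by rw [mul_one]; exact h5
  · intro x hx hne
    have hlin : ∀ y : ι → ℝ, ∑ i, -(DG x1 (Pi.single i 1)) * y i = -(DG x1 y) := by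
      intro y
      conv_rhs => rw [← Finset.univ_sum_single y]
      rw [map_sum, ← Finset.sum_neg_distrib]
      refine Finset.sum_congr rfl (fun i _ => ?_)
      have : (Pi.single i (y i) : ι → ℝ) = y i • Pi.single i 1 := by
        rw [← Pi.single_smul, smul_eq_mul, mul_one]
      rw [this, map_smul, smul_eq_mul]
      ring
    rw [hlin, hlin]
    have hseg : ∀ s ∈ Icc (0 : ℝ) 1, x1 + s • (x - x1) ∈ ball x0 r := by
      intro s hs
      exact (convex_ball x0 r).add_smul_sub_mem hx1 hx hs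
    have hgd : ∀ s ∈ Icc (0 : ℝ) 1, HasDerivAt
        (fun s : ℝ => (F0 (x1 + s • (x - x1)) + ∑ j, c j * F1 (x1 + s • (x - x1)) j) -
          DG x1 (x1 + s • (x - x1))) ((DG (x1 + s • (x - x1)) - DG x1) (x - x1)) s := by
      intro s hs
      have hline : HasDerivAt (fun s : ℝ => x1 + s • (x - x1)) (x - x1) s := by
        have := ((hasDerivAt_id s).smul_const (x - x1)).const_add x1
        simpa using this
      have h1 := (hG _ (hseg s hs)).comp_hasDerivAt s hline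
      have h2 := (DG x1).hasFDerivAt.comp_hasDerivAt s hline
      exact h1.sub h2
    have hanti : StrictAntiOn (fun s : ℝ => (F0 (x1 + s • (x - x1)) +
        ∑ j, c j * F1 (x1 + s • (x - x1)) j) - DG x1 (x1 + s • (x - x1))) (Icc 0 1) := by
      refine strictAntiOn_of_deriv_neg (convex_Icc 0 1)
        (fun t ht => (hgd t ht).continuousAt.continuousWithinAt) (fun s hs => ?_)
      have hs' : s ∈ Icc (0 : ℝ) 1 := interior_subset hs
      rw [(hgd s hs').deriv]
      rw [interior_Icc] at hs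
      have h1 := hmonoG _ (hseg s hs') x1 hx1
      rw [add_sub_cancel_left, map_smul, smul_eq_mul, norm_smul, Real.norm_eq_abs,
        abs_of_pos hs.1] at h1
      have h2 : 0 < ‖x - x1‖ := norm_pos_iff.2 (sub_ne_zero.2 hne)
      have h3 : 0 < η * (s * ‖x - x1‖) ^ 2 := by
        have := hs.1
        positivity
      by_contra h4
      push Not at h4
      have h5 := mul_nonneg hs.1.le h4
      linarith
    have h8 := hanti (left_mem_Icc.2 zero_le_one) (right_mem_Icc.2 zero_le_one) zero_lt_one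
    simp only [zero_smul, add_zero, one_smul, add_sub_cancel] at h8
    linarith

end KV
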