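import Pool.Agent.Lib.KV.SpecL

set_option autoImplicit false

open Set Filter Topology Metric

namespace KV

open KP

namespace LLAux

/-- The points `(t, x)` for which the wedge of the directions in `ball v e` is in `A`. -/
private def GG {m k : ℕ} (A : Set (Cn (m + k))) (h : (Ix m k → ℝ) → (Fin k → ℝ))
    (v : Fin k → ℝ) (e : ℝ) : Set (Option (Ix m k) → ℝ) :=
  {z | ∀ y : Fin k → ℝ, y ∈ ball v e →
    pt (fun i => z (some i)) (h (fun i => z (some i)) + z none • y) ∈ A}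

private def HH {m k : ℕ} (A : Set (Cn (m + k))) (h : (Ix m k → ℝ) → (Fin k → ℝ))
    (v : Fin k → ℝ) (e : ℝ) : Set (Ix m k → ℝ) :=
  {x | ∀ τ : ℝ, 0 < τ → ∃ θ : ℝ, 0 < θ ∧ θ < τ ∧ cns θ x ∈ GG A h v e}

private theorem sq_ball {ι : Type} {k : ℕ} (v : Fin k → ℝ) (e : ℝ) (he : 0 < e) :
    SQ {w : ι ⊕ Fin k → ℝ | (fun j => w (Sum.inr j)) ∈ ball v e} := by
  have h1 : SQ (⋂ j : Fin k, ({w : ι ⊕ Fin k → ℝ | MvPolynomial.eval w
      (MvPolynomial.X (Sum.inr j) - MvPolynomial.C (v j)) < MvPolynomial.eval w (MvPolynomial.C e)} ∩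
      {w : ι ⊕ Fin k → ℝ | MvPolynomial.eval w
      (MvPolynomial.C (v j) - MvPolynomial.X (Sum.inr j)) <
        MvPolynomial.eval w (MvPolynomial.C e)})) :=
    SQ.iInter fun j => (SQ.lt _ _).inter (SQ.lt _ _)
  have h2 : {w : ι ⊕ Fin k → ℝ | (fun j => w (Sum.inr j)) ∈ ball v e} =
      ⋂ j : Fin k, ({w : ι ⊕ Fin k → ℝ | MvPolynomial.eval w
      (MvPolynomial.X (Sum.inr j) - MvPolynomial.C (v j)) < MvPolynomial.eval w (MvPolynomial.C e)} ∩
      {w : ι ⊕ Fin k → ℝ | MvPolynomial.eval w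
      (MvPolynomial.C (v j) - MvPolynomial.X (Sum.inr j)) <
        MvPolynomial.eval w (MvPolynomial.C e)}) := by
    ext w
    rw [mem_iInter]
    change (fun j => w (Sum.inr j)) ∈ ball v e ↔ _
    rw [mem_ball, dist_pi_lt_iff he]
    refine forall_congr' fun j => ?_
    rw [Real.dist_eq, abs_lt]
    change _ ↔ (MvPolynomial.eval w (MvPolynomial.X (Sum.inr j) - MvPolynomial.C (v j)) <
      MvPolynomial.eval w (MvPolynomial.C e) ∧
      MvPolynomial.eval w (MvPolynomial.C (v j) - MvPolynomial.X (Sum.inr j)) <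
        MvPolynomial.eval w (MvPolynomial.C e))
    rw [map_sub, map_sub, MvPolynomial.eval_X, MvPolynomial.eval_C, MvPolynomial.eval_C]
    constructor
    · rintro ⟨h1, h2⟩
      exact ⟨h2, by linarith⟩
    · rintro ⟨h1, h2⟩
      exact ⟨by linarith, h1⟩
  rw [h2]
  exact h1

private theorem sq_GG (hT : S_TSn) (hS : S_SqA) {m k : ℕ} (A : Set (Cn (m + k)))
    (h : (Ix m k → ℝ) → (Fin k → ℝ)) (hA : SC A) (hh : SF h) (v : Fin k → ℝ) (e : ℝ)
    (he : 0 < e) : SQ (GG A h v e) := by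
  have h1 := hS m k A h hA hh
  have h2 := h1.preim (ι := Option (Ix m k) ⊕ Fin k) (fun s : Ix m k ⊕ Fin k =>
    Sum.elim (fun i => (MvPolynomial.X (Sum.inl (some i)) : MvPolynomial _ ℝ))
      (fun j => MvPolynomial.X (Sum.inl none) * MvPolynomial.X (Sum.inr j)) s)
  refine SQ.all hT (P := fun (z : Option (Ix m k) → ℝ) (y : Fin k → ℝ) => y ∈ ball v e →
    pt (fun i => z (some i)) (h (fun i => z (some i)) + z none • y) ∈ A) ?_
  have h3 := (sq_ball (ι := Option (Ix m k)) v e he).compl.union h2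
  have h4 : {z : Option (Ix m k) ⊕ Fin k → ℝ | (fun j => z (Sum.inr j)) ∈ ball v e →
      pt (fun i => z (Sum.inl (some i))) (h (fun i => z (Sum.inl (some i))) +
        z (Sum.inl none) • fun j => z (Sum.inr j)) ∈ A} =
      {w : Option (Ix m k) ⊕ Fin k → ℝ | (fun j => w (Sum.inr j)) ∈ ball v e}ᶜ ∪
      {x : Option (Ix m k) ⊕ Fin k → ℝ | (fun s => MvPolynomial.eval x
        (Sum.elim (fun i => (MvPolynomial.X (Sum.inl (some i)) : MvPolynomial _ ℝ))
        (fun j => MvPolynomial.X (Sum.inl none) * MvPolynomial.X (Sum.inr j)) s)) ∈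
        {z : Ix m k ⊕ Fin k → ℝ | pt (fun i => z (Sum.inl i))
          (h (fun i => z (Sum.inl i)) + fun j => z (Sum.inr j)) ∈ A}} := by
    ext z
    rw [mem_union, mem_compl_iff]
    change (_ → _) ↔ (¬ _ ∨ _)
    rw [← imp_iff_not_or]
    refine imp_congr Iff.rfl ?_
    change _ ↔ pt (fun i => MvPolynomial.eval z (MvPolynomial.X (Sum.inl (some i))))
      (h (fun i => MvPolynomial.eval z (MvPolynomial.X (Sum.inl (some i)))) +
        fun j => MvPolynomial.eval z
          (MvPolynomial.X (Sum.inl none) * MvPolynomial.X (Sum.inr j))) ∈ A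
    simp only [MvPolynomial.eval_X, map_mul]
    rfl
  rw [h4]
  exact h3

private theorem sq_HH (hT : S_TSn) (hS : S_SqA) {m k : ℕ} (A : Set (Cn (m + k)))
    (h : (Ix m k → ℝ) → (Fin k → ℝ)) (hA : SC A) (hh : SF h) (v : Fin k → ℝ) (e : ℝ)
    (he : 0 < e) : SQ (HH A h v e) := by
  have hG := sq_GG hT hS A h hA hh v e he
  refine SQ.all1 hT (P := fun (x : Ix m k → ℝ) (τ : ℝ) => 0 < τ → ∃ θ : ℝ, 0 < θ ∧ θ < τ ∧
    cns θ x ∈ GG A h v e) ?_
  have h1 : SQ {z : Option (Ix m k) → ℝ | ∃ θ : ℝ, 0 < θ ∧ θ < z none ∧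
      cns θ (fun i => z (some i)) ∈ GG A h v e} := by
    refine SQ.ex1 hT (P := fun (z : Option (Ix m k) → ℝ) (θ : ℝ) => 0 < θ ∧ θ < z none ∧
      cns θ (fun i => z (some i)) ∈ GG A h v e) ?_
    have a1 : SQ {z : Option (Option (Ix m k)) → ℝ | 0 < MvPolynomial.eval z
        (MvPolynomial.X none)} := SQ.pos _
    have a2 : SQ {z : Option (Option (Ix m k)) → ℝ | MvPolynomial.eval z
        (MvPolynomial.X none) < MvPolynomial.eval z (MvPolynomial.X (some none))} := SQ.lt _ _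
    have a3 := hG.reidx (ι := Option (Option (Ix m k)))
      (fun o : Option (Ix m k) => o.elim none (fun i => some (some i)))
    have a4 := a1.inter (a2.inter a3)
    have a5 : {z : Option (Option (Ix m k)) → ℝ | 0 < z none ∧ z none < z (some none) ∧
        cns (z none) (fun i => z (some (some i))) ∈ GG A h v e} =
        {z : Option (Option (Ix m k)) → ℝ | 0 < MvPolynomial.eval z (MvPolynomial.X none)} ∩
        ({z : Option (Option (Ix m k)) → ℝ | MvPolynomial.eval z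
        (MvPolynomial.X none) < MvPolynomial.eval z (MvPolynomial.X (some none))} ∩
        {x : Option (Option (Ix m k)) → ℝ | (fun j : Option (Ix m k) =>
          x (j.elim none (fun i => some (some i)))) ∈ GG A h v e}) := by
      ext z
      have e1 : (fun j : Option (Ix m k) => z (j.elim none (fun i => some (some i)))) =
          cns (z none) (fun i => z (some (some i))) := by
        funext o
        cases o <;> rfl
      rw [mem_inter_iff, mem_inter_iff]
      change _ ↔ (0 < MvPolynomial.eval z (MvPolynomial.X none) ∧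
        MvPolynomial.eval z (MvPolynomial.X none) <
          MvPolynomial.eval z (MvPolynomial.X (some none)) ∧ (fun j : Option (Ix m k) =>
        z (j.elim none (fun i => some (some i)))) ∈ GG A h v e)
      rw [e1, MvPolynomial.eval_X, MvPolynomial.eval_X]
      rfl
    rw [a5]
    exact a4
  have h2 : SQ {z : Option (Ix m k) → ℝ | 0 < MvPolynomial.eval z (MvPolynomial.X none)} :=
    SQ.pos _
  have h3 : {z : Option (Ix m k) → ℝ | 0 < z none → ∃ θ : ℝ, 0 < θ ∧ θ < z none ∧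
      cns θ (fun i => z (some i)) ∈ GG A h v e} =
      {z : Option (Ix m k) → ℝ | 0 < MvPolynomial.eval z (MvPolynomial.X none)}ᶜ ∪
      {z : Option (Ix m k) → ℝ | ∃ θ : ℝ, 0 < θ ∧ θ < z none ∧
        cns θ (fun i => z (some i)) ∈ GG A h v e} := by
    ext z
    rw [mem_union, mem_compl_iff]
    change (0 < z none → ∃ θ : ℝ, 0 < θ ∧ θ < z none ∧
      cns θ (fun i => z (some i)) ∈ GG A h v e) ↔
      (¬ (0 < MvPolynomial.eval z (MvPolynomial.X none)) ∨ ∃ θ : ℝ, 0 < θ ∧ θ < z none ∧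
      cns θ (fun i => z (some i)) ∈ GG A h v e)
    rw [← imp_iff_not_or, MvPolynomial.eval_X]
  rw [h3]
  exact h2.compl.union h1

private theorem pt_dist {m k : ℕ} (x x' : Ix m k → ℝ) (v v' : Fin k → ℝ) :
    dist x' x ≤ dist (pt x' v') (pt x v) := by
  rw [dist_pi_le_iff dist_nonneg]
  rintro ((a | a) | j)
  · have h1 := dist_le_pi_dist (pt x' v') (pt x v) (Fin.castAdd k a)
    refine le_trans ?_ h1
    rw [Complex.dist_eq, Real.dist_eq]
    have h2 : x' (Sum.inl (Sum.inl a)) - x (Sum.inl (Sum.inl a)) =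
        (pt x' v' (Fin.castAdd k a) - pt x v (Fin.castAdd k a)).re := by
      unfold pt
      rw [Fin.append_left, Fin.append_left]
      simp
    rw [h2]
    exact Complex.abs_re_le_norm _
  · have h1 := dist_le_pi_dist (pt x' v') (pt x v) (Fin.castAdd k a)
    refine le_trans ?_ h1
    rw [Complex.dist_eq, Real.dist_eq]
    have h2 : x' (Sum.inl (Sum.inr a)) - x (Sum.inl (Sum.inr a)) =
        (pt x' v' (Fin.castAdd k a) - pt x v (Fin.castAdd k a)).im := by
      unfold pt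
      rw [Fin.append_left, Fin.append_left]
      simp
    rw [h2]
    exact Complex.abs_im_le_norm _
  · have h1 := dist_le_pi_dist (pt x' v') (pt x v) (Fin.natAdd m j)
    refine le_trans ?_ h1
    rw [Complex.dist_eq, Real.dist_eq]
    have h2 : x' (Sum.inr j) - x (Sum.inr j) =
        (pt x' v' (Fin.natAdd m j) - pt x v (Fin.natAdd m j)).re := by
      unfold pt
      rw [Fin.append_right, Fin.append_right]
      simp
    rw [h2]
    exact Complex.abs_re_le_norm _

private theorem mem_GG {m k : ℕ} {A : Set (Cn (m + k))} {h : (Ix m k → ℝ) → (Fin k → ℝ)}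
    {v : Fin k → ℝ} {e : ℝ} {t : ℝ} {x : Ix m k → ℝ} :
    cns t x ∈ GG A h v e ↔ ∀ y ∈ ball v e, pt x (h x + t • y) ∈ A := Iff.rfl

end LLAux

open LLAux in
theorem tLL (h1 : S_TSn) (h2 : S_SqA) (h3 : S_WdP) (h4 : S_Bai) (h5 : S_DL) (h6 : S_NowD) :
    S_LL := by
  intro m k A O h hNF hT
  obtain ⟨O1, hO1, hO1o, hO1n, hw⟩ := h3 m k A O h hNF hT
  obtain ⟨s, hs⟩ := exists_surjective_nat ((Fin k → ℚ) × ℕ)
  have hpos : ∀ n : ℕ, (0 : ℝ) < 1 / ((n : ℝ) + 1) := fun n => by positivity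
  obtain ⟨n, x1, hx1, hx1O⟩ := h4 (Ix m k) O1
    (fun n => HH A h (fun j => ((s n).1 j : ℝ)) (1 / (((s n).2 : ℝ) + 1))) hO1o hO1n
    (fun n => sq_HH h1 h2 A h hNF.sc hNF.sf _ _ (hpos _)) (by
      intro x hx
      obtain ⟨V, c, hc, hV⟩ := hw x hx
      have hq : ∀ j, ∃ q : ℚ, V j - c / 2 < q ∧ (q : ℝ) < V j + c / 2 := fun j =>
        exists_rat_btwn (by linarith)
      choose q hq1 hq2 using hq
      obtain ⟨N, hN⟩ := exists_nat_one_div_lt (show 0 < c / 2 by linarith)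
      obtain ⟨n, hn⟩ := hs (q, N)
      rw [mem_iUnion]
      refine ⟨n, ?_⟩
      rw [hn]
      intro τ hτ
      obtain ⟨θ, hθ, hθV⟩ := hV τ hτ
      refine ⟨θ, hθ.1, hθ.2, fun y hy => hθV y ?_⟩
      rw [mem_ball] at hy ⊢
      have hd : dist (fun j => (q j : ℝ)) V < c / 2 := by
        rw [dist_pi_lt_iff (by linarith)]
        intro j
        rw [Real.dist_eq, abs_lt]
        constructor
        · linarith [hq1 j]
        · linarith [hq2 j]
      have := dist_triangle y (fun j => (q j : ℝ)) V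
      linarith)
  obtain ⟨v, hv⟩ : ∃ v : Fin k → ℝ, v = fun j => ((s n).1 j : ℝ) := ⟨_, rfl⟩
  obtain ⟨e, he⟩ : ∃ e : ℝ, e = 1 / (((s n).2 : ℝ) + 1) := ⟨_, rfl⟩
  have he0 : 0 < e := by rw [he]; exact hpos _
  rw [← hv, ← he] at hx1
  obtain ⟨q, hq0, hq⟩ := h5 (Ix m k) (GG A h v e) (sq_GG h1 h2 A h hNF.sc hNF.sf v e he0)
  obtain ⟨hqo, hqd⟩ := h6 (Ix m k) q hq0
  have hO3o : IsOpen (interior (HH A h v e) ∩ O1 ∩ {x | MvPolynomial.eval x q ≠ 0}) :=
    (isOpen_interior.inter hO1o).inter hqo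
  have hO3n : (interior (HH A h v e) ∩ O1 ∩ {x | MvPolynomial.eval x q ≠ 0}).Nonempty :=
    hqd.inter_open_nonempty _ (isOpen_interior.inter hO1o) ⟨x1, hx1, hx1O⟩
  refine ⟨interior (HH A h v e) ∩ O1 ∩ {x | MvPolynomial.eval x q ≠ 0},
    fun x hx => hO1 hx.1.2, ?_, ?_⟩
  · refine hNF.mono hO3o hO3n (fun x hx => hO1 hx.1.2) ?_
    intro x hx
    obtain ⟨r, hr, hrO⟩ := Metric.isOpen_iff.1 hO3o x hx
    refine ⟨r, hr, fun x' _ hx' => hrO ?_⟩
    rw [mem_ball] at hx' ⊢
    exact (pt_dist x x' (h x) (h x')).trans_lt hx'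
  · intro x hx
    obtain ⟨δ, hδ, hE⟩ := hq x hx.2
    rcases hE with hE | hE
    · refine ⟨v, min δ e, lt_min hδ he0, fun x' hx' t ht y hy => ?_⟩
      have h7 := hE x' (ball_subset_ball (min_le_left _ _) hx') t
        ⟨ht.1, ht.2.trans_le (min_le_left _ _)⟩
      exact mem_GG.1 h7 y (ball_subset_ball (min_le_right _ _) hy)
    · exfalso
      obtain ⟨θ, hθ0, hθ1, hθ2⟩ := interior_subset hx.1.1 δ hδ
      exact hE x (mem_ball_self hδ) θ ⟨hθ0, hθ1⟩ hθ2

end KV
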