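import Pool.Agent.Lib.KV.SpecL

/-! # KV, block L: the quadratic remainder of a function of class `C²` -/

set_option autoImplicit false

open Set Filter Topology Metric

namespace KV

theorem tQua : S_Qua := by
  intro E F _ _ _ _ f x0 hf
  have h1 : ContDiffAt ℝ 1 (fderiv ℝ f) x0 := hf.fderiv_right (by norm_num)
  obtain ⟨K, t, ht, hK⟩ := h1.exists_lipschitzOnWith
  have h2 : ∀ᶠ x in 𝓝 x0, ContDiffAt ℝ 2 f x := hf.eventually (by simp)
  obtain ⟨r, hr, hrt⟩ := Metric.nhds_basis_closedBall.mem_iff.mp (Filter.inter_mem ht h2)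
  refine ⟨K + 1, by positivity, r, hr, ?_⟩
  intro x hx x' hx'
  have hx0 : ‖x - x0‖ ≤ r := mem_closedBall_iff_norm.mp hx
  have hx0' : ‖x' - x0‖ ≤ r := mem_closedBall_iff_norm.mp hx'
  set ρ : ℝ := max ‖x - x0‖ ‖x' - x0‖ with hρ
  have hρr : ρ ≤ r := max_le hx0 hx0'
  have hρ1 : ρ ≤ ‖x - x0‖ + ‖x' - x0‖ :=
    max_le (by linarith [norm_nonneg (x' - x0)]) (by linarith [norm_nonneg (x - x0)])
  have hsub : closedBall x0 ρ ⊆ closedBall x0 r := closedBall_subset_closedBall hρr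
  have hd : ∀ w ∈ closedBall x0 ρ, HasFDerivWithinAt f (fderiv ℝ f w) (closedBall x0 ρ) w := by
    intro w hw
    have h3 : ContDiffAt ℝ 2 f w := (hrt (hsub hw)).2
    exact (h3.differentiableAt (by norm_num)).hasFDerivAt.hasFDerivWithinAt
  have hb : ∀ w ∈ closedBall x0 ρ, ‖fderiv ℝ f w - fderiv ℝ f x0‖ ≤ K * ρ := by
    intro w hw
    have h3 : ‖fderiv ℝ f w - fderiv ℝ f x0‖ ≤ K * ‖w - x0‖ := by
      rw [← dist_eq_norm, ← dist_eq_norm]
      exact hK.dist_le_mul w (hrt (hsub hw)).1 x0 (hrt (mem_closedBall_self hr.le)).1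
    exact h3.trans (mul_le_mul_of_nonneg_left (mem_closedBall_iff_norm.mp hw) K.2)
  have hx2 : x ∈ closedBall x0 ρ := mem_closedBall_iff_norm.mpr (le_max_left _ _)
  have hx2' : x' ∈ closedBall x0 ρ := mem_closedBall_iff_norm.mpr (le_max_right _ _)
  have h5 := (convex_closedBall x0 ρ).norm_image_sub_le_of_norm_hasFDerivWithin_le' hd hb hx2' hx2
  refine h5.trans (mul_le_mul_of_nonneg_right ?_ (norm_nonneg _))
  have hK0 : (0 : ℝ) ≤ K := K.2
  have hs : 0 ≤ ‖x - x0‖ + ‖x' - x0‖ := by positivity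
  nlinarith

end KV
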