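import Pool.Agent.Lib.KV.SpecL

set_option autoImplicit false

open Set Filter Topology Metric

namespace KV

theorem tRtr : S_Rtr := by
  intro k x0 ρ hρ
  have hne : (closedBall x0 ρ).Nonempty := ⟨x0, mem_closedBall_self hρ.le⟩
  have hcomp : IsComplete (closedBall x0 ρ) := isClosed_closedBall.isComplete
  have hconv : Convex ℝ (closedBall x0 ρ) := convex_closedBall x0 ρ
  have hex : ∀ x : Ek k, ∃ v ∈ closedBall x0 ρ, ∀ w ∈ closedBall x0 ρ,
      inner ℝ (x - v) (w - v) ≤ 0 := by
    intro x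
    obtain ⟨v, hv, hmin⟩ := exists_norm_eq_iInf_of_complete_convex hne hcomp hconv x
    exact ⟨v, hv, (norm_eq_iInf_iff_real_inner_le_zero hconv hv).1 hmin⟩
  choose P hP1 hP2 using hex
  refine ⟨P, hP1, ?_, ?_⟩
  · intro x hx
    have h := hP2 x x hx
    have h2 : ‖x - P x‖ ^ 2 ≤ 0 := by
      rw [← real_inner_self_eq_norm_sq]
      exact h
    have h3 : ‖x - P x‖ = 0 := by
      have := norm_nonneg (x - P x)
      nlinarith
    exact (sub_eq_zero.1 (norm_eq_zero.1 h3)).symm
  · intro x y
    have h1 := hP2 x (P y) (hP1 y)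
    have h2 := hP2 y (P x) (hP1 x)
    have h3 : inner ℝ (x - P x) (P y - P x) = - inner ℝ (x - P x) (P x - P y) := by
      rw [← inner_neg_right, neg_sub]
    have h4 : inner ℝ (x - y) (P x - P y) = inner ℝ (x - P x) (P x - P y) +
        inner ℝ (P x - P y) (P x - P y) - inner ℝ (y - P y) (P x - P y) := by
      rw [← inner_add_left, ← inner_sub_left]
      congr 1
      abel
    have h5 : ‖P x - P y‖ ^ 2 ≤ inner ℝ (x - y) (P x - P y) := by
      rw [h4, real_inner_self_eq_norm_sq]
      linarith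
    have h6 : inner ℝ (x - y) (P x - P y) ≤ ‖x - y‖ * ‖P x - P y‖ := real_inner_le_norm _ _
    by_contra hcon
    push Not at hcon
    have h7 : 0 < ‖P x - P y‖ := lt_of_le_of_lt (norm_nonneg _) hcon
    nlinarith

end KV
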