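import Pool.Agent.Lib.KV.SpecL

set_option autoImplicit false

open Set Filter Topology Metric

namespace KV

theorem tSec (h1 : S_Acu) (h2 : S_Sec1) (h3 : S_Sec2) (h4 : S_LipV) : S_Sec := by
  intro m k A O h H
  obtain ⟨x0, hx0⟩ := H.nO
  obtain ⟨lam, a, ha, r, hr, hrO, hac⟩ := h1 m k A O h H x0 hx0
  obtain ⟨x1, δ, hδ, hδr, hs⟩ := h2 m k A O h H x0 hx0 lam a r ha hr hrO hac
  obtain ⟨Y, hY, hYs⟩ := h3 m k A O h H x0 hx0 lam a r ha hr hrO hac x1 δ hδ hδr hs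
  obtain ⟨x2, hx2, δ2, hδ2, hb2, hL1, hL2⟩ := h4 (Ix m k) (Fin k) Y hY (ball x1 δ) a⁻¹ δ
    isOpen_ball ⟨x1, mem_ball_self hδ⟩ hδ (fun j x hx t ht => (hYs x hx t ht).1 j)
  have ha0 : 0 ≤ a⁻¹ := (inv_pos.2 ha).le
  refine ⟨x2, min δ2 δ, a⁻¹ + 1, Y, lt_min hδ2 hδ, by positivity, ?_, ?_, ?_, ?_⟩
  · exact ((ball_subset_ball (min_le_left _ _)).trans hb2).trans (hδr.trans hrO)
  · intro x hx t ht
    have hx' : x ∈ ball x1 δ := hb2 (ball_subset_ball (min_le_left _ _) hx)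
    have ht' : t ∈ Ioo (0 : ℝ) δ := ⟨ht.1, ht.2.trans_le (min_le_right _ _)⟩
    refine ⟨fun j => ((hYs x hx' t ht').1 j).trans ?_, (hYs x hx' t ht').2⟩
    have := ht.1
    nlinarith
  · intro τ hτ
    obtain ⟨δ', hδ', hl⟩ := hL1 τ hτ
    exact ⟨δ', hδ', fun j x hx x' hx' t ht =>
      hl j x (ball_subset_ball (min_le_left _ _) hx) x' (ball_subset_ball (min_le_left _ _) hx')
        t ht⟩
  · intro j x hx t ht t' ht'
    exact hL2 j x (ball_subset_ball (min_le_left _ _) hx) t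
      ⟨ht.1, ht.2.trans_le (min_le_left _ _)⟩ t' ⟨ht'.1, ht'.2.trans_le (min_le_left _ _)⟩

end KV
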