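import Pool.Agent.Lib.KV.SpecL

/-! # KV, block L, module Sec1 (helper24) -/

set_option autoImplicit false

open Set Filter Topology Metric

namespace KV

open KP

namespace Sec1Aux

/-- The coordinates `x` of a point. -/
noncomputable def xof {m k : ℕ} (p : Cn (m + k)) : Ix m k → ℝ :=
  Sum.elim (Sum.elim (fun a => (p (Fin.castAdd k a)).re) (fun a => (p (Fin.castAdd k a)).im))
    (fun j => (p (Fin.natAdd m j)).re)

/-- The coordinates `v` of a point. -/
noncomputable def vof {m k : ℕ} (p : Cn (m + k)) : Fin k → ℝ := fun j => (p (Fin.natAdd m j)).im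

theorem pt_of {m k : ℕ} (p : Cn (m + k)) : pt (xof p) (vof p) = p := by
  funext i
  refine Fin.addCases (fun a => ?_) (fun b => ?_) i
  · simp only [pt, xof, Fin.append_left, Sum.elim_inl, Sum.elim_inr]
    exact Complex.re_add_im _
  · simp only [pt, xof, vof, Fin.append_right, Sum.elim_inr]
    exact Complex.re_add_im _

theorem xof_pt {m k : ℕ} (x : Ix m k → ℝ) (v : Fin k → ℝ) : xof (pt x v) = x := by
  funext s
  rcases s with (a | a) | j
  · simp [xof, pt, Fin.append_left]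
  · simp [xof, pt, Fin.append_left]
  · simp [xof, pt, Fin.append_right]

theorem vof_pt {m k : ℕ} (x : Ix m k → ℝ) (v : Fin k → ℝ) : vof (pt x v) = v := by
  funext j
  simp [vof, pt, Fin.append_right]

theorem continuous_xof {m k : ℕ} : Continuous (xof : Cn (m + k) → (Ix m k → ℝ)) := by
  refine continuous_pi fun s => ?_
  rcases s with (a | a) | j
  · exact Complex.continuous_re.comp (continuous_apply _)
  · exact Complex.continuous_im.comp (continuous_apply _)
  · exact Complex.continuous_re.comp (continuous_apply _)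

theorem continuous_vof {m k : ℕ} : Continuous (vof : Cn (m + k) → (Fin k → ℝ)) := by
  refine continuous_pi fun j => ?_
  exact Complex.continuous_im.comp (continuous_apply _)

/-- The set `G`. -/
def GS {m k : ℕ} (A : Set (Cn (m + k))) (h : (Ix m k → ℝ) → (Fin k → ℝ)) (lam : Fin k → ℝ)
    (r : ℝ) : Set (Option (Ix m k) → ℝ) :=
  {z | ∃ ν : Fin k → ℝ, (∀ j, |ν j| < r) ∧ ∑ j, lam j * ν j = z none ∧
    pt (fun i => z (some i)) (h (fun i => z (some i)) + ν) ∈ A}

theorem sq_GS (h1 : S_TSn) (h2 : S_SqA) {m k : ℕ} (A : Set (Cn (m + k)))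
    (h : (Ix m k → ℝ) → (Fin k → ℝ)) (hA : SC A) (hh : SF h) (lam : Fin k → ℝ) (r : ℝ) :
    SQ (GS A h lam r) := by
  have e1 : SQ {z : Option (Ix m k) ⊕ Fin k → ℝ | ∀ j, |z (Sum.inr j)| < r} := by
    have h3 : SQ (⋂ j : Fin k, {z : Option (Ix m k) ⊕ Fin k → ℝ | |z (Sum.inr j)| < r}) := by
      refine SQ.iInter fun j => ?_
      have h4 := (SQ.lt (MvPolynomial.X (Sum.inr j) : MvPolynomial (Option (Ix m k) ⊕ Fin k) ℝ)
        (MvPolynomial.C r)).inter
        (SQ.lt (MvPolynomial.C (-r)) (MvPolynomial.X (Sum.inr j) :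
          MvPolynomial (Option (Ix m k) ⊕ Fin k) ℝ))
      have h5 : {x : Option (Ix m k) ⊕ Fin k → ℝ | MvPolynomial.eval x (MvPolynomial.X (Sum.inr j)) <
          MvPolynomial.eval x (MvPolynomial.C r)} ∩
          {x | MvPolynomial.eval x (MvPolynomial.C (-r)) <
            MvPolynomial.eval x (MvPolynomial.X (Sum.inr j))} =
          {z : Option (Ix m k) ⊕ Fin k → ℝ | |z (Sum.inr j)| < r} := by
        ext z
        simp only [mem_inter_iff, mem_ofPred_eq, MvPolynomial.eval_X, MvPolynomial.eval_C, abs_lt]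
        exact and_comm
      rwa [h5] at h4
    have h6 : (⋂ j : Fin k, {z : Option (Ix m k) ⊕ Fin k → ℝ | |z (Sum.inr j)| < r}) =
        {z : Option (Ix m k) ⊕ Fin k → ℝ | ∀ j, |z (Sum.inr j)| < r} := by
      ext z
      simp
    rwa [h6] at h3
  have e2 : SQ {z : Option (Ix m k) ⊕ Fin k → ℝ |
      ∑ j, lam j * z (Sum.inr j) = z (Sum.inl none)} := by
    have h3 := SQ.eq (∑ j, MvPolynomial.C (lam j) * MvPolynomial.X (Sum.inr j) :
      MvPolynomial (Option (Ix m k) ⊕ Fin k) ℝ) (MvPolynomial.X (Sum.inl none))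
    simpa using h3
  have e3 : SQ {z : Option (Ix m k) ⊕ Fin k → ℝ |
      pt (fun i => z (Sum.inl (some i))) (h (fun i => z (Sum.inl (some i))) +
        fun j => z (Sum.inr j)) ∈ A} := by
    have h3 := (h2 m k A h hA hh).reidx
      (Sum.elim (fun i => Sum.inl (some i)) Sum.inr : Ix m k ⊕ Fin k → Option (Ix m k) ⊕ Fin k)
    exact h3
  exact SQ.ex h1 (P := fun (z : Option (Ix m k) → ℝ) (ν : Fin k → ℝ) =>
    (∀ j, |ν j| < r) ∧ ∑ j, lam j * ν j = z none ∧
    pt (fun i => z (some i)) (h (fun i => z (some i)) + ν) ∈ A) (e1.inter (e2.inter e3))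

end Sec1Aux

open Sec1Aux in
theorem tSec1 (h1 : S_TSn) (h2 : S_SqA) (h3 : S_DL) (h4 : S_NowD) : S_Sec1 := by
  intro m k A O h hNF x0 hx0 lam a r ha hr hO hac
  obtain ⟨q, hq0, hq⟩ := h3 (Ix m k) _ (sq_GS h1 h2 A h hNF.sc hNF.sf lam r)
  obtain ⟨x1, hx1, hx1q⟩ := (h4 (Ix m k) q hq0).2.exists_mem_open isOpen_ball
    ⟨x0, mem_ball_self hr⟩
  obtain ⟨x1, hx1q, hx1⟩ : ∃ x1 ∈ ball x0 r, MvPolynomial.eval x1 q ≠ 0 := by
    first
      | exact ⟨x1, hx1, hx1q⟩
      | exact ⟨x1, hx1q, hx1⟩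
  obtain ⟨δ, hδ, hE⟩ := hq x1 hx1
  have hd : 0 < r - dist x1 x0 := sub_pos.2 hx1q
  have hsub : ball x1 (min δ (r - dist x1 x0)) ⊆ ball x0 r := by
    intro y hy
    have h5 : dist y x1 < r - dist x1 x0 := lt_of_lt_of_le hy (min_le_right _ _)
    have h6 := dist_triangle y x1 x0
    rw [mem_ball]
    linarith
  have hδ' : 0 < min δ (r - dist x1 x0) := lt_min hδ hd
  rcases hE with hE | hE
  · refine ⟨x1, min δ (r - dist x1 x0), hδ', hsub, ?_⟩
    intro x hx t ht
    obtain ⟨ν, e1, e2, e3⟩ := hE x (ball_subset_ball (min_le_left _ _) hx) t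
      ⟨ht.1, lt_of_lt_of_le ht.2 (min_le_left _ _)⟩
    exact ⟨ν, (pi_norm_lt_iff hr).2 fun j => by rw [Real.norm_eq_abs]; exact e1 j, e2, e3⟩
  · exfalso
    have hxO : x1 ∈ O := hO hx1q
    have hpk := hNF.pk x1 hxO
    have hcl : pt x1 (h x1) ∈ closure A := hpk.2.1
    have hcont : ContinuousAt h x1 := (hNF.ana x1 hxO).continuousAt
    have c1 : Tendsto (fun p : Cn (m + k) => xof p) (𝓝 (pt x1 (h x1))) (𝓝 x1) := by
      have := (continuous_xof (m := m) (k := k)).tendsto (pt x1 (h x1))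
      rwa [xof_pt] at this
    have c2 : Tendsto (fun p : Cn (m + k) => vof p) (𝓝 (pt x1 (h x1))) (𝓝 (h x1)) := by
      have := (continuous_vof (m := m) (k := k)).tendsto (pt x1 (h x1))
      rwa [vof_pt] at this
    have c3 : Tendsto (fun p : Cn (m + k) => vof p - h (xof p)) (𝓝 (pt x1 (h x1))) (𝓝 0) := by
      have := c2.sub (hcont.tendsto.comp c1)
      rwa [sub_self] at this
    have c4 : Tendsto (fun p : Cn (m + k) => ∑ j, lam j * (vof p - h (xof p)) j)
        (𝓝 (pt x1 (h x1))) (𝓝 0) := by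
      have h5 : Tendsto (fun w : Fin k → ℝ => ∑ j, lam j * w j) (𝓝 0) (𝓝 0) := by
        have h6 : Continuous (fun w : Fin k → ℝ => ∑ j, lam j * w j) := by fun_prop
        have h7 := h6.tendsto 0
        simpa using h7
      exact h5.comp c3
    have ev1 := c1.eventually (ball_mem_nhds x1 hδ')
    have ev2 := c3.eventually (ball_mem_nhds (0 : Fin k → ℝ) hr)
    have ev3 := c4.eventually (gt_mem_nhds hδ' : ∀ᶠ t in 𝓝 (0 : ℝ), t < min δ (r - dist x1 x0))
    obtain ⟨p, hpA, p1, p2, p3⟩ := ((mem_closure_iff_frequently.1 hcl).and_eventually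
      (ev1.and (ev2.and ev3))).exists
    have hp : pt (xof p) (h (xof p) + (vof p - h (xof p))) = p := by
      rw [add_sub_cancel, pt_of]
    have hxr : xof p ∈ ball x0 r := hsub p1
    have hnr : ‖vof p - h (xof p)‖ < r := by
      have h5 : dist (vof p - h (xof p)) 0 < r := p2
      rwa [dist_zero_right] at h5
    have hpA' : pt (xof p) (h (xof p) + (vof p - h (xof p))) ∈ A := by rwa [hp]
    have hineq := hac (xof p) hxr _ hnr hpA'
    have hne : vof p - h (xof p) ≠ 0 := by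
      intro h0
      have h5 : vof p = h (xof p) := sub_eq_zero.1 h0
      have h6 := (hNF.pk (xof p) (hO hxr)).1
      rw [← h5, pt_of] at h6
      exact h6 hpA
    have hpos : 0 < ∑ j, lam j * (vof p - h (xof p)) j :=
      lt_of_lt_of_le (mul_pos ha (norm_pos_iff.2 hne)) hineq
    refine hE (xof p) (ball_subset_ball (min_le_left _ _) p1)
      (∑ j, lam j * (vof p - h (xof p)) j) ⟨hpos, lt_of_lt_of_le p3 (min_le_left _ _)⟩ ?_
    refine ⟨vof p - h (xof p), fun j => ?_, rfl, ?_⟩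
    · rw [← Real.norm_eq_abs]
      exact lt_of_le_of_lt (norm_le_pi_norm _ j) hnr
    · exact hpA'

end KV
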