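import Pool.Agent.Lib.KV.SpecL

/-! # KV, block L, module Sec2 (helper17) -/

set_option autoImplicit false

open Set Filter Topology Metric

namespace KV

open KP

namespace Sec2Aux

variable {m k : ℕ}

/-- The vectors which are small and lead to a point of `A`. -/
def Wd (A : Set (Cn (m + k))) (h : (Ix m k → ℝ) → (Fin k → ℝ)) (r : ℝ) (x : Ix m k → ℝ)
    (ν : Fin k → ℝ) : Prop := (∀ j, |ν j| < r) ∧ pt x (h x + ν) ∈ A

/-- The ball of radius `e` around `ν` consists of such vectors. -/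
def In (A : Set (Cn (m + k))) (h : (Ix m k → ℝ) → (Fin k → ℝ)) (r : ℝ) (x : Ix m k → ℝ)
    (ν : Fin k → ℝ) (e : ℝ) : Prop :=
  0 < e ∧ ∀ ν' : Fin k → ℝ, (∀ j, |ν' j - ν j| < e) → Wd A h r x ν'

/-- The centres of the largest balls. -/
def Mx (A : Set (Cn (m + k))) (h : (Ix m k → ℝ) → (Fin k → ℝ)) (lam : Fin k → ℝ) (r : ℝ)
    (y : Option (Ix m k) → ℝ) (ν : Fin k → ℝ) : Prop :=
  ∑ j, lam j * ν j = y none ∧ ∃ e : ℝ, In A h r (fun i => y (some i)) ν e ∧
    ∀ ν'' : Fin k → ℝ, ∀ e'' : ℝ, ∑ j, lam j * ν'' j = y none →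
      In A h r (fun i => y (some i)) ν'' e'' → e'' ≤ e

theorem sq_imp {ι : Type} {P Q : (ι → ℝ) → Prop} (hP : SQ {z | P z}) (hQ : SQ {z | Q z}) :
    SQ {z | P z → Q z} := by
  have h1 := hP.compl.union hQ
  have h2 : {z | P z}ᶜ ∪ {z | Q z} = {z : ι → ℝ | P z → Q z} := by
    ext z
    simp only [mem_union, mem_compl_iff, mem_ofPred_eq]
    tauto
  rwa [h2] at h1

theorem sq_W (h2 : S_SqA) (A : Set (Cn (m + k))) (h : (Ix m k → ℝ) → (Fin k → ℝ)) (hA : SC A)
    (hh : SF h) (r : ℝ) : SQ {z : Ix m k ⊕ Fin k → ℝ |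
      Wd A h r (fun i => z (Sum.inl i)) (fun j => z (Sum.inr j))} := by
  have e1 : SQ {z : Ix m k ⊕ Fin k → ℝ | ∀ j, |z (Sum.inr j)| < r} := by
    have h3 : SQ (⋂ j : Fin k, {z : Ix m k ⊕ Fin k → ℝ | |z (Sum.inr j)| < r}) := by
      refine SQ.iInter fun j => ?_
      have h4 := (SQ.lt (MvPolynomial.X (Sum.inr j) : MvPolynomial (Ix m k ⊕ Fin k) ℝ)
        (MvPolynomial.C r)).inter
        (SQ.lt (MvPolynomial.C (-r)) (MvPolynomial.X (Sum.inr j) :
          MvPolynomial (Ix m k ⊕ Fin k) ℝ))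
      have h5 : {x : Ix m k ⊕ Fin k → ℝ | MvPolynomial.eval x (MvPolynomial.X (Sum.inr j)) <
          MvPolynomial.eval x (MvPolynomial.C r)} ∩
          {x | MvPolynomial.eval x (MvPolynomial.C (-r)) <
            MvPolynomial.eval x (MvPolynomial.X (Sum.inr j))} =
          {z : Ix m k ⊕ Fin k → ℝ | |z (Sum.inr j)| < r} := by
        ext z
        simp only [mem_inter_iff, mem_ofPred_eq, MvPolynomial.eval_X, MvPolynomial.eval_C, abs_lt]
        exact and_comm
      rwa [h5] at h4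
    have h6 : (⋂ j : Fin k, {z : Ix m k ⊕ Fin k → ℝ | |z (Sum.inr j)| < r}) =
        {z : Ix m k ⊕ Fin k → ℝ | ∀ j, |z (Sum.inr j)| < r} := by
      ext z
      simp
    rwa [h6] at h3
  exact e1.inter (h2 m k A h hA hh)

theorem sq_In (h1 : S_TSn) (h2 : S_SqA) (A : Set (Cn (m + k)))
    (h : (Ix m k → ℝ) → (Fin k → ℝ)) (hA : SC A) (hh : SF h) (r : ℝ) :
    SQ {z : Option (Ix m k ⊕ Fin k) → ℝ |
      In A h r (fun i => z (some (Sum.inl i))) (fun j => z (some (Sum.inr j))) (z none)} := by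
  have e1 : SQ {z : Option (Ix m k ⊕ Fin k) → ℝ | 0 < z none} := by
    have h3 := SQ.pos (MvPolynomial.X none : MvPolynomial (Option (Ix m k ⊕ Fin k)) ℝ)
    simpa using h3
  refine e1.inter ?_
  refine SQ.all h1 (P := fun (z : Option (Ix m k ⊕ Fin k) → ℝ) (ν' : Fin k → ℝ) =>
    (∀ j, |ν' j - z (some (Sum.inr j))| < z none) →
      Wd A h r (fun i => z (some (Sum.inl i))) ν') ?_
  refine sq_imp ?_ ?_
  · have h3 : SQ (⋂ j : Fin k, {z : Option (Ix m k ⊕ Fin k) ⊕ Fin k → ℝ |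
        |z (Sum.inr j) - z (Sum.inl (some (Sum.inr j)))| < z (Sum.inl none)}) := by
      refine SQ.iInter fun j => ?_
      have h4 := (SQ.lt (MvPolynomial.X (Sum.inr j) - MvPolynomial.X (Sum.inl (some (Sum.inr j))) :
          MvPolynomial (Option (Ix m k ⊕ Fin k) ⊕ Fin k) ℝ)
        (MvPolynomial.X (Sum.inl none))).inter
        (SQ.lt (-(MvPolynomial.X (Sum.inl none)) : MvPolynomial (Option (Ix m k ⊕ Fin k) ⊕ Fin k) ℝ)
          (MvPolynomial.X (Sum.inr j) - MvPolynomial.X (Sum.inl (some (Sum.inr j)))))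
      have h5 : {x : Option (Ix m k ⊕ Fin k) ⊕ Fin k → ℝ | MvPolynomial.eval x
          (MvPolynomial.X (Sum.inr j) - MvPolynomial.X (Sum.inl (some (Sum.inr j)))) <
          MvPolynomial.eval x (MvPolynomial.X (Sum.inl none))} ∩
          {x | MvPolynomial.eval x (-(MvPolynomial.X (Sum.inl none))) <
            MvPolynomial.eval x
              (MvPolynomial.X (Sum.inr j) - MvPolynomial.X (Sum.inl (some (Sum.inr j))))} =
          {z : Option (Ix m k ⊕ Fin k) ⊕ Fin k → ℝ |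
            |z (Sum.inr j) - z (Sum.inl (some (Sum.inr j)))| < z (Sum.inl none)} := by
        ext z
        simp only [mem_inter_iff, mem_ofPred_eq, map_sub, map_neg, MvPolynomial.eval_X, abs_lt]
        exact and_comm
      rwa [h5] at h4
    have h6 : (⋂ j : Fin k, {z : Option (Ix m k ⊕ Fin k) ⊕ Fin k → ℝ |
        |z (Sum.inr j) - z (Sum.inl (some (Sum.inr j)))| < z (Sum.inl none)}) =
        {z : Option (Ix m k ⊕ Fin k) ⊕ Fin k → ℝ | ∀ j,
        |z (Sum.inr j) - z (Sum.inl (some (Sum.inr j)))| < z (Sum.inl none)} := by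
      ext z
      simp
    rwa [h6] at h3
  · exact (sq_W h2 A h hA hh r).reidx
      (Sum.elim (fun i => Sum.inl (some (Sum.inl i))) Sum.inr :
        Ix m k ⊕ Fin k → Option (Ix m k ⊕ Fin k) ⊕ Fin k)

theorem sq_M (h1 : S_TSn) (h2 : S_SqA) (A : Set (Cn (m + k)))
    (h : (Ix m k → ℝ) → (Fin k → ℝ)) (hA : SC A) (hh : SF h) (lam : Fin k → ℝ) (r : ℝ) :
    SQ {z : Option (Ix m k) ⊕ Fin k → ℝ |
      Mx A h lam r (fun i => z (Sum.inl i)) (fun j => z (Sum.inr j))} := by
  have e1 : SQ {z : Option (Ix m k) ⊕ Fin k → ℝ |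
      ∑ j, lam j * z (Sum.inr j) = z (Sum.inl none)} := by
    have h3 := SQ.eq (∑ j, MvPolynomial.C (lam j) * MvPolynomial.X (Sum.inr j) :
      MvPolynomial (Option (Ix m k) ⊕ Fin k) ℝ) (MvPolynomial.X (Sum.inl none))
    simpa using h3
  refine e1.inter ?_
  refine SQ.ex1 h1 (P := fun (z : Option (Ix m k) ⊕ Fin k → ℝ) (e : ℝ) =>
    In A h r (fun i => z (Sum.inl (some i))) (fun j => z (Sum.inr j)) e ∧
    ∀ ν'' : Fin k → ℝ, ∀ e'' : ℝ, ∑ j, lam j * ν'' j = z (Sum.inl none) →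
      In A h r (fun i => z (Sum.inl (some i))) ν'' e'' → e'' ≤ e) ?_
  have hI := sq_In h1 h2 A h hA hh r
  refine SQ.inter ?_ ?_
  · exact hI.reidx (fun o : Option (Ix m k ⊕ Fin k) =>
      (o.elim none (Sum.elim (fun i => some (Sum.inl (some i))) (fun j => some (Sum.inr j))) :
        Option (Option (Ix m k) ⊕ Fin k)))
  · refine SQ.all h1 (P := fun (z : Option (Option (Ix m k) ⊕ Fin k) → ℝ) (ν'' : Fin k → ℝ) =>
      ∀ e'' : ℝ, ∑ j, lam j * ν'' j = z (some (Sum.inl none)) →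
      In A h r (fun i => z (some (Sum.inl (some i)))) ν'' e'' → e'' ≤ z none) ?_
    refine SQ.all1 h1 (P := fun (z : Option (Option (Ix m k) ⊕ Fin k) ⊕ Fin k → ℝ) (e'' : ℝ) =>
      ∑ j, lam j * z (Sum.inr j) = z (Sum.inl (some (Sum.inl none))) →
      In A h r (fun i => z (Sum.inl (some (Sum.inl (some i))))) (fun j => z (Sum.inr j)) e'' →
        e'' ≤ z (Sum.inl none)) ?_
    refine sq_imp ?_ (sq_imp ?_ ?_)
    · have h3 := SQ.eq (∑ j, MvPolynomial.C (lam j) * MvPolynomial.X (some (Sum.inr j)) :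
        MvPolynomial (Option (Option (Option (Ix m k) ⊕ Fin k) ⊕ Fin k)) ℝ)
        (MvPolynomial.X (some (Sum.inl (some (Sum.inl none)))))
      simpa using h3
    · exact hI.reidx (fun o : Option (Ix m k ⊕ Fin k) =>
        (o.elim none (Sum.elim (fun i => some (Sum.inl (some (Sum.inl (some i)))))
          (fun j => some (Sum.inr j))) :
          Option (Option (Option (Ix m k) ⊕ Fin k) ⊕ Fin k)))
    · have h3 := SQ.le (MvPolynomial.X none :
        MvPolynomial (Option (Option (Option (Ix m k) ⊕ Fin k) ⊕ Fin k)) ℝ)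
        (MvPolynomial.X (some (Sum.inl none)))
      simpa using h3

theorem cont_pt (x : Ix m k → ℝ) (u : Fin k → ℝ) :
    Continuous fun ν : Fin k → ℝ => pt x (u + ν) := by
  refine continuous_pi fun i => ?_
  refine Fin.addCases (fun a => ?_) (fun b => ?_) i
  · simp only [pt, Fin.append_left]
    exact continuous_const
  · simp only [pt, Fin.append_right, Pi.add_apply]
    fun_prop

theorem open_W (A : Set (Cn (m + k))) (hA : IsOpen A) (h : (Ix m k → ℝ) → (Fin k → ℝ)) (r : ℝ)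
    (x : Ix m k → ℝ) : IsOpen {ν : Fin k → ℝ | Wd A h r x ν} := by
  have e1 : IsOpen {ν : Fin k → ℝ | ∀ j, |ν j| < r} := by
    have h3 : {ν : Fin k → ℝ | ∀ j, |ν j| < r} = ⋂ j, {ν : Fin k → ℝ | |ν j| < r} := by
      ext ν; simp
    rw [h3]
    refine isOpen_iInter_of_finite fun j => ?_
    exact isOpen_lt (by fun_prop) continuous_const
  exact e1.inter (hA.preimage (cont_pt x (h x)))

theorem in_iff (A : Set (Cn (m + k))) (h : (Ix m k → ℝ) → (Fin k → ℝ)) (r : ℝ)
    (x : Ix m k → ℝ) (hne : ({ν : Fin k → ℝ | Wd A h r x ν}ᶜ).Nonempty) (ν : Fin k → ℝ) (e : ℝ) :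
    In A h r x ν e ↔ 0 < e ∧ e ≤ infDist ν {ν : Fin k → ℝ | Wd A h r x ν}ᶜ := by
  constructor
  · rintro ⟨he, h1⟩
    refine ⟨he, (le_infDist hne).2 fun y hy => ?_⟩
    by_contra hc
    push Not at hc
    refine hy (h1 y fun j => ?_)
    have h2 : dist (y j) (ν j) ≤ dist y ν := dist_le_pi_dist y ν j
    rw [dist_comm y ν, Real.dist_eq] at h2
    exact lt_of_le_of_lt h2 hc
  · rintro ⟨he, h1⟩
    refine ⟨he, fun ν' hν' => ?_⟩
    by_contra hc
    have h2 : infDist ν {ν : Fin k → ℝ | Wd A h r x ν}ᶜ ≤ dist ν ν' := infDist_le_dist_of_mem hc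
    have h3 : dist ν ν' < e := by
      rw [dist_comm]
      refine (dist_pi_lt_iff he).2 fun j => ?_
      rw [Real.dist_eq]
      exact hν' j
    linarith

end Sec2Aux

open Sec2Aux in
theorem tSec2 (h1 : S_TSn) (h2 : S_SqA) (h3 : S_Sel) : S_Sec2 := by
  intro m k A O h hNF x0 hx0 lam a r ha hr hO hac x1 δ hδ hsub hs
  obtain ⟨σ, hσ, hsel⟩ := h3 (Option (Ix m k)) (Fin k) _
    (sq_M h1 h2 A h hNF.sc hNF.sf lam r)
  have hk : 0 < k := by
    rcases Nat.eq_zero_or_pos k with h0 | h0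
    · exfalso
      subst h0
      obtain ⟨ν, -, hν, -⟩ := hs x1 (mem_ball_self hδ) (δ / 2) ⟨by linarith, by linarith⟩
      simp at hν
      linarith
    · exact h0
  refine ⟨fun j z => σ z j, ?_, ?_⟩
  · intro j
    have e1 : SQ {z : Option (Option (Ix m k)) → ℝ | ∃ y : Fin k → ℝ,
        y = σ (fun i => z (some i)) ∧ z none = y j} := by
      refine SQ.ex h1 (P := fun (z : Option (Option (Ix m k)) → ℝ) (y : Fin k → ℝ) =>
        y = σ (fun i => z (some i)) ∧ z none = y j) ?_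
      refine SQ.inter ?_ ?_
      · exact SQ.reidx hσ (Sum.elim (fun i => Sum.inl (some i)) Sum.inr :
          Option (Ix m k) ⊕ Fin k → Option (Option (Ix m k)) ⊕ Fin k)
      · have h4 := SQ.eq (MvPolynomial.X (Sum.inl none) :
          MvPolynomial (Option (Option (Ix m k)) ⊕ Fin k) ℝ) (MvPolynomial.X (Sum.inr j))
        have h5 : SQ {z : Option (Option (Ix m k)) ⊕ Fin k → ℝ |
            z (Sum.inl none) = z (Sum.inr j)} := by simpa using h4
        exact h5
    have e2 : {z : Option (Option (Ix m k)) → ℝ | ∃ y : Fin k → ℝ,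
        y = σ (fun i => z (some i)) ∧ z none = y j} =
        {z : Option (Option (Ix m k)) → ℝ | z none = σ (fun i => z (some i)) j} := by
      ext z
      constructor
      · rintro ⟨y, rfl, hy⟩
        exact hy
      · intro hz
        exact ⟨_, rfl, hz⟩
    rw [e2] at e1
    exact e1
  · intro x hx t ht
    have hM : Mx A h lam r (cns t x) (σ (cns t x)) := by
      have hWo : IsOpen {ν : Fin k → ℝ | Wd A h r x ν} := open_W A hNF.opn h r x
      have hne : ({ν : Fin k → ℝ | Wd A h r x ν}ᶜ).Nonempty := by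
        refine ⟨fun _ => r, fun hc => ?_⟩
        have h4 := hc.1 ⟨0, hk⟩
        rw [abs_of_pos hr] at h4
        exact lt_irrefl _ h4
      have hiff := in_iff A h r x hne
      obtain ⟨ν0, hν0, hs0, hA0⟩ := hs x hx t ht
      have hW0 : Wd A h r x ν0 := by
        refine ⟨fun j => ?_, hA0⟩
        rw [← Real.norm_eq_abs]
        exact lt_of_le_of_lt (norm_le_pi_norm ν0 j) hν0
      have hKc : IsCompact ({ν : Fin k → ℝ | ∑ j, lam j * ν j = t} ∩ closedBall 0 r) := by
        refine (isCompact_closedBall (0 : Fin k → ℝ) r).inter_left ?_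
        exact isClosed_eq (by fun_prop) continuous_const
      have hcont : Continuous fun ν : Fin k → ℝ =>
          infDist ν {ν : Fin k → ℝ | Wd A h r x ν}ᶜ := continuous_infDist_pt _
      have hWK : ∀ ν : Fin k → ℝ, Wd A h r x ν → ν ∈ closedBall (0 : Fin k → ℝ) r := by
        intro ν hν
        rw [mem_closedBall, dist_zero_right]
        refine (pi_norm_le_iff_of_nonneg hr.le).2 fun j => ?_
        rw [Real.norm_eq_abs]
        exact (hν.1 j).le
      obtain ⟨ν1, hν1, hmax⟩ := hKc.exists_isMaxOn ⟨ν0, hs0, hWK ν0 hW0⟩ hcont.continuousOn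
      have hInW : ∀ ν e, In A h r x ν e → Wd A h r x ν := by
        intro ν e hI
        exact hI.2 ν fun j => by rw [sub_self, abs_zero]; exact hI.1
      have hpos0 : 0 < infDist ν0 {ν : Fin k → ℝ | Wd A h r x ν}ᶜ := by
        refine (hWo.isClosed_compl.notMem_iff_infDist_pos hne).1 ?_
        intro hc
        exact hc hW0
      have hle : ∀ ν, ν ∈ {ν : Fin k → ℝ | ∑ j, lam j * ν j = t} ∩ closedBall 0 r →
          infDist ν {ν : Fin k → ℝ | Wd A h r x ν}ᶜ ≤
            infDist ν1 {ν : Fin k → ℝ | Wd A h r x ν}ᶜ := fun ν hν => hmax hν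
      have hpos1 : 0 < infDist ν1 {ν : Fin k → ℝ | Wd A h r x ν}ᶜ :=
        lt_of_lt_of_le hpos0 (hle ν0 ⟨hs0, hWK ν0 hW0⟩)
      have key : ∀ ν, Mx A h lam r (cns t x) ν ↔
          ν ∈ ({ν : Fin k → ℝ | ∑ j, lam j * ν j = t} ∩ closedBall 0 r) ∩
            {ν | infDist ν {ν : Fin k → ℝ | Wd A h r x ν}ᶜ =
              infDist ν1 {ν : Fin k → ℝ | Wd A h r x ν}ᶜ} := by
        intro ν
        constructor
        · rintro ⟨hsum, e, hI, hm⟩
          have hI' : In A h r x ν e := hI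
          have hνK : ν ∈ {ν : Fin k → ℝ | ∑ j, lam j * ν j = t} ∩ closedBall 0 r :=
            ⟨hsum, hWK ν (hInW ν e hI')⟩
          refine ⟨hνK, le_antisymm (hle ν hνK) ?_⟩
          have h5 := hm ν1 _ hν1.1 ((hiff ν1 _).2 ⟨hpos1, le_rfl⟩)
          exact h5.trans ((hiff ν e).1 hI').2
        · rintro ⟨hνK, hf⟩
          refine ⟨hνK.1, infDist ν1 {ν : Fin k → ℝ | Wd A h r x ν}ᶜ, ?_, ?_⟩
          · exact (hiff ν _).2 ⟨hpos1, le_of_eq hf.symm⟩
          · intro ν'' e'' hs'' hI''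
            have hI' : In A h r x ν'' e'' := hI''
            exact ((hiff ν'' e'').1 hI').2.trans (hle ν'' ⟨hs'', hWK ν'' (hInW ν'' e'' hI')⟩)
      refine hsel (cns t x) ?_ ⟨ν1, (key ν1).2 ⟨hν1, rfl⟩⟩
      have h6 : {y : Fin k → ℝ | pr (cns t x) y ∈ {z : Option (Ix m k) ⊕ Fin k → ℝ |
          Mx A h lam r (fun i => z (Sum.inl i)) (fun j => z (Sum.inr j))}} =
          ({ν : Fin k → ℝ | ∑ j, lam j * ν j = t} ∩ closedBall 0 r) ∩
            {ν | infDist ν {ν : Fin k → ℝ | Wd A h r x ν}ᶜ =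
              infDist ν1 {ν : Fin k → ℝ | Wd A h r x ν}ᶜ} := by
        ext ν
        exact key ν
      rw [h6]
      exact hKc.inter_right (isClosed_eq hcont continuous_const)
    obtain ⟨hsum, e, hI, -⟩ := hM
    have hW : Wd A h r x (σ (cns t x)) :=
      hI.2 _ fun j => by rw [sub_self, abs_zero]; exact hI.1
    have hn : ‖σ (cns t x)‖ < r := (pi_norm_lt_iff hr).2 fun j => by
      rw [Real.norm_eq_abs]; exact hW.1 j
    have h7 := hac x (hsub hx) _ hn hW.2
    have h8 : ∑ j, lam j * σ (cns t x) j = t := hsum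
    rw [h8] at h7
    refine ⟨fun j => ?_, hW.2⟩
    have h9 : |σ (cns t x) j| ≤ ‖σ (cns t x)‖ := by
      rw [← Real.norm_eq_abs]
      exact norm_le_pi_norm _ j
    have h10 : ‖σ (cns t x)‖ ≤ a⁻¹ * t := by
      rw [inv_mul_eq_div, le_div_iff₀ ha, mul_comm]
      exact h7
    exact h9.trans h10

end KV
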