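import Pool.Agent.Lib.KV.SpecL

/-! # KV, block L, module SqA (helper24) -/

set_option autoImplicit false

open Set Filter Topology Metric

namespace KV

open KP

namespace SqAAux

/-- The polynomials which give the real and imaginary parts of `pt x (v + ν)`. -/
noncomputable def fP (m k : ℕ) :
    Fin (m + k) ⊕ Fin (m + k) → MvPolynomial ((Ix m k ⊕ Fin k) ⊕ Fin k) ℝ :=
  Sum.elim
    (Fin.append (fun i => MvPolynomial.X (Sum.inl (Sum.inl (Sum.inl (Sum.inl i)))))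
      (fun j => MvPolynomial.X (Sum.inl (Sum.inl (Sum.inr j)))))
    (Fin.append (fun i => MvPolynomial.X (Sum.inl (Sum.inl (Sum.inl (Sum.inr i)))))
      (fun j => MvPolynomial.X (Sum.inr j) + MvPolynomial.X (Sum.inl (Sum.inr j))))

theorem cpx_fP {m k : ℕ} (z : (Ix m k ⊕ Fin k) ⊕ Fin k → ℝ) :
    cpx (fun j => MvPolynomial.eval z (fP m k j)) =
      pt (fun i => z (Sum.inl (Sum.inl i)))
        ((fun j => z (Sum.inr j)) + fun j => z (Sum.inl (Sum.inr j))) := by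
  funext i
  refine Fin.addCases (fun a => ?_) (fun b => ?_) i
  · simp [cpx, pt, fP, Fin.append_left]
  · simp [cpx, pt, fP, Fin.append_right]

end SqAAux

open SqAAux in
theorem tSqA (h1 : S_TSn) : S_SqA := by
  intro m k A h hA hh
  have h2 : SQ {z : (Ix m k ⊕ Fin k) ⊕ Fin k → ℝ |
      (fun j => z (Sum.inr j)) = h (fun i => z (Sum.inl (Sum.inl i)))} :=
    hh.reidx (fun s : Ix m k ⊕ Fin k => (Sum.elim (fun i => Sum.inl (Sum.inl i)) Sum.inr s :
      (Ix m k ⊕ Fin k) ⊕ Fin k))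
  have h3 : SQ {z : (Ix m k ⊕ Fin k) ⊕ Fin k → ℝ |
      pt (fun i => z (Sum.inl (Sum.inl i)))
        ((fun j => z (Sum.inr j)) + fun j => z (Sum.inl (Sum.inr j))) ∈ A} := by
    have h4 := SQ.preim hA (fP m k)
    have h5 : {x : (Ix m k ⊕ Fin k) ⊕ Fin k → ℝ |
        (fun j => MvPolynomial.eval x (fP m k j)) ∈ {x : Fin (m + k) ⊕ Fin (m + k) → ℝ |
          cpx x ∈ A}} = {z : (Ix m k ⊕ Fin k) ⊕ Fin k → ℝ |
      pt (fun i => z (Sum.inl (Sum.inl i)))
        ((fun j => z (Sum.inr j)) + fun j => z (Sum.inl (Sum.inr j))) ∈ A} := by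
      ext z
      show cpx (fun j => MvPolynomial.eval z (fP m k j)) ∈ A ↔ _
      rw [cpx_fP]
      rfl
    rwa [h5] at h4
  have h6 : SQ {z : Ix m k ⊕ Fin k → ℝ | ∃ v : Fin k → ℝ, v = h (fun i => z (Sum.inl i)) ∧
      pt (fun i => z (Sum.inl i)) (v + fun j => z (Sum.inr j)) ∈ A} :=
    SQ.ex h1 (h2.inter h3)
  have h7 : {z : Ix m k ⊕ Fin k → ℝ | ∃ v : Fin k → ℝ, v = h (fun i => z (Sum.inl i)) ∧
      pt (fun i => z (Sum.inl i)) (v + fun j => z (Sum.inr j)) ∈ A} =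
      {z : Ix m k ⊕ Fin k → ℝ |
    pt (fun i => z (Sum.inl i)) (h (fun i => z (Sum.inl i)) + fun j => z (Sum.inr j)) ∈ A} := by
    ext z
    constructor
    · rintro ⟨v, rfl, hv⟩
      exact hv
    · intro hv
      exact ⟨_, rfl, hv⟩
  rwa [h7] at h6

end KV
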