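import Pool.Agent.Lib.KV.SpecL

set_option autoImplicit false

open Set Filter Topology Metric

namespace KV

open KP

namespace SupAux

/-- The real coordinates. -/
noncomputable def xof {m k : ℕ} (q : Cn (m + k)) : Ix m k → ℝ :=
  Sum.elim (Sum.elim (fun a => (q (Fin.castAdd k a)).re) (fun a => (q (Fin.castAdd k a)).im))
    (fun j => (q (Fin.natAdd m j)).re)

/-- The last imaginary parts. -/
noncomputable def vof {m k : ℕ} (q : Cn (m + k)) : Fin k → ℝ := fun j => (q (Fin.natAdd m j)).im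

theorem xof_pt {m k : ℕ} (x : Ix m k → ℝ) (v : Fin k → ℝ) : xof (pt x v) = x := by
  funext i
  rcases i with (a | a) | j <;> simp [xof, pt]

theorem vof_pt {m k : ℕ} (x : Ix m k → ℝ) (v : Fin k → ℝ) : vof (pt x v) = v := by
  funext j
  simp [vof, pt]

theorem pt_sub {m k : ℕ} (x x' : Ix m k → ℝ) (v v' : Fin k → ℝ) :
    pt x v - pt x' v' = pt (x - x') (v - v') := by
  funext i
  refine Fin.addCases (fun a => ?_) (fun j => ?_) i
  · simp only [pt, Pi.sub_apply, Fin.append_left, Complex.ofReal_sub]; ring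
  · simp only [pt, Pi.sub_apply, Fin.append_right, Complex.ofReal_sub]; ring

theorem norm_xof {m k : ℕ} (q : Cn (m + k)) : ‖xof q‖ ≤ ‖q‖ := by
  refine (pi_norm_le_iff_of_nonneg (norm_nonneg _)).2 (fun i => ?_)
  rcases i with (a | a) | j
  · exact (Complex.abs_re_le_norm _).trans (norm_le_pi_norm q _)
  · exact (Complex.abs_im_le_norm _).trans (norm_le_pi_norm q _)
  · exact (Complex.abs_re_le_norm _).trans (norm_le_pi_norm q _)

theorem norm_vof {m k : ℕ} (q : Cn (m + k)) : ‖vof q‖ ≤ ‖q‖ := by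
  refine (pi_norm_le_iff_of_nonneg (norm_nonneg _)).2 (fun i => ?_)
  exact (Complex.abs_im_le_norm _).trans (norm_le_pi_norm q _)

theorem norm_sq_nsq {n : ℕ} (q : Cn n) : ‖q‖ ^ 2 ≤ nsq q := by
  have h0 : 0 ≤ nsq q := Finset.sum_nonneg (fun i _ => Complex.normSq_nonneg _)
  have h1 : ‖q‖ ≤ Real.sqrt (nsq q) := by
    refine (pi_norm_le_iff_of_nonneg (Real.sqrt_nonneg _)).2 (fun i => ?_)
    refine Real.le_sqrt_of_sq_le ?_
    rw [← Complex.normSq_eq_norm_sq]
    exact Finset.single_le_sum (f := fun i => Complex.normSq (q i))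
      (fun i _ => Complex.normSq_nonneg _) (Finset.mem_univ i)
  calc ‖q‖ ^ 2 ≤ (Real.sqrt (nsq q)) ^ 2 := by gcongr
    _ = nsq q := Real.sq_sqrt h0

theorem norm_pt {m k : ℕ} (x : Ix m k → ℝ) (v : Fin k → ℝ) : ‖pt x v‖ ≤ 2 * ‖x‖ + ‖v‖ := by
  refine (pi_norm_le_iff_of_nonneg (by positivity)).2 (fun i => ?_)
  refine Fin.addCases (fun a => ?_) (fun j => ?_) i
  · simp only [pt, Fin.append_left]
    refine (norm_add_le _ _).trans ?_
    rw [norm_mul, Complex.norm_I, mul_one, Complex.norm_real, Complex.norm_real]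
    have h1 := norm_le_pi_norm x (Sum.inl (Sum.inl a))
    have h2 := norm_le_pi_norm x (Sum.inl (Sum.inr a))
    have h3 := norm_nonneg v
    linarith
  · simp only [pt, Fin.append_right]
    refine (norm_add_le _ _).trans ?_
    rw [norm_mul, Complex.norm_I, mul_one, Complex.norm_real, Complex.norm_real]
    have h1 := norm_le_pi_norm x (Sum.inr j)
    have h2 := norm_le_pi_norm v j
    have h3 := norm_nonneg x
    linarith

theorem contDiff_pt {m k : ℕ} :
    ContDiff ℝ 2 (fun p : (Ix m k → ℝ) × (Fin k → ℝ) => pt p.1 p.2) := by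
  rw [contDiff_pi]
  intro i
  refine Fin.addCases (fun a => ?_) (fun j => ?_) i
  · simp only [pt, Fin.append_left]
    have h1 : ContDiff ℝ 2 (fun p : (Ix m k → ℝ) × (Fin k → ℝ) => p.1 (Sum.inl (Sum.inl a))) := by
      fun_prop
    have h2 : ContDiff ℝ 2 (fun p : (Ix m k → ℝ) × (Fin k → ℝ) => p.1 (Sum.inl (Sum.inr a))) := by
      fun_prop
    exact (Complex.ofRealCLM.contDiff.comp h1).add ((Complex.ofRealCLM.contDiff.comp h2).mul contDiff_const)
  · simp only [pt, Fin.append_right]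
    have h1 : ContDiff ℝ 2 (fun p : (Ix m k → ℝ) × (Fin k → ℝ) => p.1 (Sum.inr j)) := by
      fun_prop
    have h2 : ContDiff ℝ 2 (fun p : (Ix m k → ℝ) × (Fin k → ℝ) => p.2 j) := by
      fun_prop
    exact (Complex.ofRealCLM.contDiff.comp h1).add ((Complex.ofRealCLM.contDiff.comp h2).mul contDiff_const)

/-- The linear functional. -/
noncomputable def Lf {m k : ℕ} (c : Fin k → ℝ) (b : Ix m k → ℝ) : Cn (m + k) →L[ℝ] ℝ :=
  LinearMap.toContinuousLinearMap
    { toFun := fun q => (∑ j, c j * vof q j) + ∑ i, b i * xof q i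
      map_add' := by
        intro p q
        have h1 : ∀ j, vof (p + q) j = vof p j + vof q j := fun j => by simp [vof]
        have h2 : ∀ i, xof (p + q) i = xof p i + xof q i := fun i => by
          rcases i with (a | a) | j <;> simp [xof]
        simp only [h1, h2, mul_add, Finset.sum_add_distrib]
        ring
      map_smul' := by
        intro t q
        have h1 : ∀ j, vof (t • q) j = t * vof q j := fun j => by simp [vof]
        have h2 : ∀ i, xof (t • q) i = t * xof q i := fun i => by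
          rcases i with (a | a) | j <;> simp [xof]
        simp only [h1, h2, RingHom.id_apply, smul_eq_mul, mul_add, Finset.mul_sum]
        refine congrArg₂ (· + ·) (Finset.sum_congr rfl fun j _ => by ring)
          (Finset.sum_congr rfl fun j _ => by ring) }

theorem Lf_apply {m k : ℕ} (c : Fin k → ℝ) (b : Ix m k → ℝ) (q : Cn (m + k)) :
    Lf c b q = (∑ j, c j * vof q j) + ∑ i, b i * xof q i := rfl

theorem Lf_le {m k : ℕ} (c : Fin k → ℝ) (b : Ix m k → ℝ) (ε : ℝ) (hε : 0 ≤ ε) (hc : ‖c‖ ≤ ε)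
    (hb : ‖b‖ ≤ ε) (q : Cn (m + k)) :
    Lf c b q ≤ ε * ((k : ℝ) + (Fintype.card (Ix m k) : ℝ)) * ‖q‖ := by
  rw [Lf_apply]
  have h1 : ∑ j, c j * vof q j ≤ ∑ _j : Fin k, ε * ‖q‖ := by
    refine Finset.sum_le_sum (fun j _ => ?_)
    have h2 := (norm_le_pi_norm c j).trans hc
    have h3 := (norm_le_pi_norm (vof q) j).trans (norm_vof q)
    rw [Real.norm_eq_abs] at h2 h3
    calc c j * vof q j ≤ |c j * vof q j| := le_abs_self _
      _ = |c j| * |vof q j| := abs_mul _ _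
      _ ≤ ε * ‖q‖ := mul_le_mul h2 h3 (abs_nonneg _) hε
  have h4 : ∑ i, b i * xof q i ≤ ∑ _i : Ix m k, ε * ‖q‖ := by
    refine Finset.sum_le_sum (fun j _ => ?_)
    have h2 := (norm_le_pi_norm b j).trans hb
    have h3 := (norm_le_pi_norm (xof q) j).trans (norm_xof q)
    rw [Real.norm_eq_abs] at h2 h3
    calc b j * xof q j ≤ |b j * xof q j| := le_abs_self _
      _ = |b j| * |xof q j| := abs_mul _ _
      _ ≤ ε * ‖q‖ := mul_le_mul h2 h3 (abs_nonneg _) hε
  rw [Finset.sum_const, nsmul_eq_mul, Finset.card_univ, Fintype.card_fin] at h1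
  rw [Finset.sum_const, nsmul_eq_mul, Finset.card_univ] at h4
  calc _ ≤ (k : ℝ) * (ε * ‖q‖) + (Fintype.card (Ix m k) : ℝ) * (ε * ‖q‖) := add_le_add h1 h4
    _ = _ := by ring

theorem D2_lin {n : ℕ} (L : Cn n →L[ℝ] ℝ) (c v : Cn n) : D2 (fun z => L z) c v = 0 := by
  have h1 : fderiv ℝ (fun z => L z) = fun _ => L := by
    funext z
    exact L.fderiv
  rw [D2, h1]
  simp

theorem nsq_ge {m k : ℕ} (x x' : Ix m k → ℝ) (v v' : Fin k → ℝ) :
    ‖x - x'‖ ^ 2 ≤ nsq (pt x v - pt x' v') := by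
  refine le_trans ?_ (norm_sq_nsq _)
  have h1 := norm_xof (pt x v - pt x' v')
  rw [pt_sub, xof_pt] at h1
  rw [pt_sub]
  gcongr

/-- Uniqueness of the linear correction. -/
theorem b_unique {ι : Type} [Fintype ι] (G : (ι → ℝ) → ℝ) (x1 : ι → ℝ) (b b' : ι → ℝ)
    (hG : DifferentiableAt ℝ G x1)
    (h : IsLocalMax (fun x => G x + ∑ i, b i * x i) x1)
    (h' : IsLocalMax (fun x => G x + ∑ i, b' i * x i) x1) : b = b' := by
  classical
  have key : ∀ d : ι → ℝ, IsLocalMax (fun x => G x + ∑ i, d i * x i) x1 →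
      ∀ i, d i = -(fderiv ℝ G x1 (Pi.single i 1)) := by
    intro d hd i
    have h1 : HasFDerivAt (fun x : ι → ℝ => ∑ i, d i * x i)
        (∑ i, d i • (ContinuousLinearMap.proj i : (ι → ℝ) →L[ℝ] ℝ)) x1 := by
      refine HasFDerivAt.fun_sum (fun i _ => ?_)
      exact ((ContinuousLinearMap.proj i : (ι → ℝ) →L[ℝ] ℝ).hasFDerivAt).const_mul (d i)
    have h2 := hG.hasFDerivAt.add h1
    have h3 := hd.hasFDerivAt_eq_zero h2
    have h4 := congrArg (fun L : (ι → ℝ) →L[ℝ] ℝ => L (Pi.single i 1)) h3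
    simp only [add_apply, zero_apply, sum_apply, smul_apply, smul_eq_mul,
      ContinuousLinearMap.proj_apply] at h4
    rw [Finset.sum_eq_single i (fun j _ hj => by rw [Pi.single_eq_of_ne hj, mul_zero])
      (fun hi => absurd (Finset.mem_univ i) hi), Pi.single_eq_same, mul_one] at h4
    linarith
  funext i
  rw [key b h i, key b' h' i]

end SupAux

open SupAux

theorem tSup (h1 : S_Hes) (h2 : S_PkOf) (h3 : S_LvO) (h4 : S_NoMax) (h5 : S_D2A) : S_Sup := by
  intro m k A O h H x0 hx0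
  classical
  obtain ⟨hp0A, hp0c, Φ, hΦ, hΦL, η, hη, hev⟩ := H.pk x0 hx0
  set p0 := pt x0 (h x0) with hp0
  -- the dimension is positive
  have hn : 0 < m + k := by
    rcases Nat.eq_zero_or_pos (m + k) with h0 | h0
    · exfalso
      have : IsEmpty (Fin (m + k)) := by rw [h0]; infer_instance
      obtain ⟨z, hz⟩ : A.Nonempty := closure_nonempty_iff.1 ⟨p0, hp0c⟩
      exact hp0A (by rwa [Subsingleton.elim p0 z])
    · exact h0
  refine ⟨Φ, hΦ, hΦL, ?_⟩
  obtain ⟨r1, hr1, m1, hm1, hL⟩ := h3 _ Φ p0 hΦ hΦL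
  obtain ⟨r2, hr2, hb2⟩ := Metric.eventually_nhds_iff_ball.1 hev
  set ρ1 := min r1 r2 / 2 with hρ1
  have hρ1pos : 0 < ρ1 := by have := lt_min hr1 hr2; positivity
  have hρ11 : ρ1 < min r1 r2 := by have := lt_min hr1 hr2; rw [hρ1]; linarith
  have hb1 : closedBall p0 ρ1 ⊆ ball p0 r1 := fun z hz =>
    mem_ball.2 (((mem_closedBall.1 hz).trans_lt hρ11).trans_le (min_le_left _ _))
  have hb2' : closedBall p0 ρ1 ⊆ ball p0 r2 := fun z hz =>
    mem_ball.2 (((mem_closedBall.1 hz).trans_lt hρ11).trans_le (min_le_right _ _))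
  -- the inequality on the closure
  have hcl : ∀ z ∈ closure A, z ∈ closedBall p0 ρ1 → Φ z + η * nsq (z - p0) ≤ Φ p0 := by
    intro z hzc hzb
    have hz2 : z ∈ closure (ball p0 r2 ∩ A) := isOpen_ball.inter_closure ⟨hb2' hzb, hzc⟩
    have : NeBot (𝓝[ball p0 r2 ∩ A] z) := mem_closure_iff_nhdsWithin_neBot.1 hz2
    have hc1 : ContinuousAt Φ z := (hL z (hb1 hzb)).1.continuousAt
    have hc2 : Continuous (fun z : Cn (m + k) => nsq (z - p0)) := by
      unfold nsq
      exact continuous_finsetSum _ (fun i _ => Complex.continuous_normSq.comp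
        ((continuous_apply i).comp (continuous_id.sub continuous_const)))
    have hc3 : ContinuousAt (fun z => Φ z + η * nsq (z - p0)) z :=
      hc1.add (continuousAt_const.mul hc2.continuousAt)
    refine le_of_tendsto (hc3.tendsto.mono_left (nhdsWithin_le_nhds (s := ball p0 r2 ∩ A))) ?_
    filter_upwards [self_mem_nhdsWithin] with w hw
    exact hb2 w hw.1 hw.2
  -- the graph
  have hgr : ∀ x ∈ O, pt x (h x) ∈ closure A := fun x hx => (H.pk x hx).2.1
  have hhC : ContDiffAt ℝ 2 h x0 := (H.ana x0 hx0).contDiffAt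
  have hPC : ContDiffAt ℝ 2 (fun x => pt x (h x)) x0 := by
    have h6 : ContDiffAt ℝ 2 (fun x : Ix m k → ℝ => (x, h x)) x0 := contDiffAt_id.prodMk hhC
    exact (contDiff_pt.contDiffAt (x := (x0, h x0))).comp x0 h6
  have hPc : ContinuousAt (fun x => pt x (h x)) x0 := hPC.continuousAt
  have hF0 : ContDiffAt ℝ 2 (fun x => Φ (pt x (h x))) x0 := ContDiffAt.comp x0 hΦ hPC
  have hPball : ∀ᶠ x in 𝓝 x0, pt x (h x) ∈ closedBall p0 ρ1 :=
    hPc.eventually (closedBall_mem_nhds p0 hρ1pos)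
  have hOev : ∀ᶠ x in 𝓝 x0, x ∈ O := H.hO.mem_nhds hx0
  have hm : ∀ᶠ x in 𝓝 x0, (fun x => Φ (pt x (h x))) x + η * ‖x - x0‖ ^ 2 ≤
      (fun x => Φ (pt x (h x))) x0 := by
    filter_upwards [hPball, hOev] with x hx hxO
    have h6 := hcl _ (hgr x hxO) hx
    have h7 := mul_le_mul_of_nonneg_left (nsq_ge x x0 (h x) (h x0)) hη.le
    linarith
  -- first application of Hes
  obtain ⟨rA, hrA, aA, haA, HA⟩ := h1 (Ix m k) (Fin k) (fun x => Φ (pt x (h x))) h x0 η hη hF0 hhC
    hm 1 one_pos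
  obtain ⟨rl, hrl, Hl⟩ := H.loc x0 hx0
  set ρ2 := min ρ1 (min rA rl) with hρ2
  have hρ2pos : 0 < ρ2 := lt_min hρ1pos (lt_min hrA hrl)
  set C : ℝ := (k : ℝ) + (Fintype.card (Ix m k) : ℝ) with hC
  have hC0 : 0 ≤ C := by positivity
  set ε : ℝ := η * ρ2 / (C + 1) with hε
  have hεpos : 0 < ε := by positivity
  have hεC : ε * C < η * ρ2 := by
    have h6 : ε * (C + 1) = η * ρ2 := div_mul_cancel₀ _ (by positivity)
    nlinarith
  obtain ⟨rB, hrB, aB, haB, HB⟩ := h1 (Ix m k) (Fin k) (fun x => Φ (pt x (h x))) h x0 η hη hF0 hhC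
    hm ε hεpos
  -- differentiability near x0
  have hd0 : ∀ᶠ x in 𝓝 x0, DifferentiableAt ℝ (fun x => Φ (pt x (h x))) x := by
    filter_upwards [hF0.eventually (by simp)] with x hx using hx.differentiableAt (by norm_num)
  have hd1 : ∀ᶠ x in 𝓝 x0, DifferentiableAt ℝ h x := by
    filter_upwards [hhC.eventually (by simp)] with x hx using hx.differentiableAt (by norm_num)
  obtain ⟨rC, hrC, HC⟩ := Metric.eventually_nhds_iff_ball.1
    (hd0.and (hd1.and (hPball.and hOev)))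
  set r := min (min rA rB) (min rC (ρ1 / 3)) with hr
  have hrpos : 0 < r := lt_min (lt_min hrA hrB) (lt_min hrC (by positivity))
  have hrrA : r ≤ rA := (min_le_left _ _).trans (min_le_left _ _)
  have hrrB : r ≤ rB := (min_le_left _ _).trans (min_le_right _ _)
  have hrrC : r ≤ rC := (min_le_right _ _).trans (min_le_left _ _)
  have hrρ : r ≤ ρ1 / 3 := (min_le_right _ _).trans (min_le_right _ _)
  refine ⟨min aA (min aB ε), lt_min haA (lt_min haB hεpos), r, hrpos, ?_⟩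
  intro x1 hx1 c hc
  have hcA : ‖c‖ ≤ aA := hc.trans (min_le_left _ _)
  have hcB : ‖c‖ ≤ aB := hc.trans ((min_le_right _ _).trans (min_le_left _ _))
  have hcε : ‖c‖ ≤ ε := hc.trans ((min_le_right _ _).trans (min_le_right _ _))
  have hx1A : x1 ∈ ball x0 rA := ball_subset_ball hrrA hx1
  have hx1B : x1 ∈ ball x0 rB := ball_subset_ball hrrB hx1
  have hx1C : x1 ∈ ball x0 rC := ball_subset_ball hrrC hx1
  obtain ⟨hx1d0, hx1d1, hx1b, hx1O⟩ := HC x1 hx1C
  obtain ⟨bA, -, HA'⟩ := HA x1 hx1A c hcA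
  obtain ⟨bB, hbB, HB'⟩ := HB x1 hx1B c hcB
  have hbAB : bA = bB := by
    refine b_unique (fun x => Φ (pt x (h x)) + ∑ j, c j * h x j) x1 bA bB ?_ ?_ ?_
    · refine hx1d0.add ?_
      have h6 : ∀ j ∈ (Finset.univ : Finset (Fin k)), DifferentiableAt ℝ (fun x => c j * h x j) x1 :=
        fun j _ => ((differentiableAt_pi.1 hx1d1) j).const_mul (c j)
      exact DifferentiableAt.fun_sum h6
    · filter_upwards [isOpen_ball.mem_nhds hx1A] with x hx
      rcases eq_or_ne x x1 with rfl | hne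
      · exact le_rfl
      · exact (HA' x hx hne).le
    · filter_upwards [isOpen_ball.mem_nhds hx1B] with x hx
      rcases eq_or_ne x x1 with rfl | hne
      · exact le_rfl
      · exact (HB' x hx hne).le
  subst hbAB
  refine ⟨bA, ?_⟩
  -- the function Psi
  set Ψ : Cn (m + k) → ℝ := fun z => 1 * Φ z + 1 * Lf c bA z with hΨ
  have hΨpt : ∀ (x : Ix m k → ℝ) (v : Fin k → ℝ), Ψ (pt x v) =
      Φ (pt x v) + (∑ j, c j * v j) + (∑ i, bA i * x i) := by
    intro x v
    simp only [hΨ, Lf_apply, vof_pt, xof_pt]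
    ring
  have hLC : ∀ z, ContDiffAt ℝ 2 (fun z => Lf c bA z) z := fun z => (Lf c bA).contDiff.contDiffAt
  have hΨC : ∀ z ∈ ball p0 r1, ContDiffAt ℝ 2 Ψ z := by
    intro z hz
    exact (contDiffAt_const.mul (hL z hz).1).add (contDiffAt_const.mul (hLC z))
  have hΨL : ∀ z ∈ ball p0 r1, ∀ v ≠ 0, 0 < Lv Ψ z v := by
    intro z hz v hv
    have h6 : Lv Ψ z v = Lv Φ z v := by
      unfold Lv
      rw [h5 _ Φ (fun z => Lf c bA z) z (hL z hz).1 (hLC z) 1 1 v,
        h5 _ Φ (fun z => Lf c bA z) z (hL z hz).1 (hLC z) 1 1 (Complex.I • v), D2_lin, D2_lin]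
      ring
    rw [h6]
    refine lt_of_lt_of_le ?_ ((hL z hz).2 v)
    have h7 := norm_sq_nsq v
    have h8 : 0 < ‖v‖ := norm_pos_iff.2 hv
    have h9 : 0 < ‖v‖ ^ 2 := by positivity
    exact mul_pos hm1 (h9.trans_le h7)
  -- the maximum
  have hKc : IsCompact (closure A ∩ closedBall p0 ρ1) :=
    (isCompact_closedBall p0 ρ1).inter_left isClosed_closure
  have hp0K : p0 ∈ closure A ∩ closedBall p0 ρ1 := ⟨hp0c, mem_closedBall_self hρ1pos.le⟩
  have hΨcont : ContinuousOn Ψ (closure A ∩ closedBall p0 ρ1) := fun z hz =>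
    (hΨC z (hb1 hz.2)).continuousAt.continuousWithinAt
  obtain ⟨q, hqK, hqmax⟩ := hKc.exists_isMaxOn ⟨p0, hp0K⟩ hΨcont
  have hqle : ∀ z ∈ closure A ∩ closedBall p0 ρ1, Ψ z ≤ Ψ q := fun z hz => hqmax hz
  have hq2 : ‖q - p0‖ < ρ2 := by
    by_contra hge
    push Not at hge
    have h6 := hcl q hqK.1 hqK.2
    have h7 := Lf_le c bA ε hεpos.le hcε hbB (q - p0)
    rw [map_sub] at h7
    have h8 := hqle p0 hp0K
    simp only [hΨ] at h8
    have h9 := mul_le_mul_of_nonneg_left (norm_sq_nsq (q - p0)) hη.le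
    have h10 : 0 < ‖q - p0‖ := hρ2pos.trans_le hge
    have h11 : ε * C * ‖q - p0‖ < η * ‖q - p0‖ ^ 2 := by
      have h12 : ε * C < η * ‖q - p0‖ := hεC.trans_le (mul_le_mul_of_nonneg_left hge hη.le)
      calc ε * C * ‖q - p0‖ < η * ‖q - p0‖ * ‖q - p0‖ := mul_lt_mul_of_pos_right h12 h10
        _ = η * ‖q - p0‖ ^ 2 := by ring
    linarith
  have hqb : q ∈ ball p0 ρ1 := by
    rw [mem_ball, dist_eq_norm]
    exact hq2.trans_le (min_le_left _ _)
  have hqPk : q ∈ Pk A := by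
    refine h2 _ A Ψ q hn H.opn (hΨC q (hb1 hqK.2)) (hΨL q (hb1 hqK.2)) hqK.1 ?_
    filter_upwards [isOpen_ball.mem_nhds hqb] with z hz hzA
    exact hqle z ⟨subset_closure hzA, ball_subset_closedBall hz⟩
  obtain ⟨x', hx'O, hqx'⟩ := Hl q (by
    rw [mem_ball, dist_eq_norm]
    exact hq2.trans_le ((min_le_right _ _).trans (min_le_right _ _))) hqPk
  have hx'A : x' ∈ ball x0 rA := by
    rw [mem_ball, dist_eq_norm]
    have h6 := norm_xof (q - p0)
    rw [hqx', hp0, pt_sub, xof_pt] at h6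
    rw [hqx', hp0] at hq2
    rw [pt_sub] at hq2
    exact (h6.trans_lt hq2).trans_le ((min_le_right _ _).trans (min_le_left _ _))
  have hP1K : pt x1 (h x1) ∈ closure A ∩ closedBall p0 ρ1 := ⟨hgr x1 hx1O, hx1b⟩
  have hx'x1 : x' = x1 := by
    by_contra hne
    have h6 := HA' x' hx'A hne
    have h7 := hqle _ hP1K
    rw [hqx', hΨpt, hΨpt] at h7
    linarith
  intro x v hx hv hxv
  have hzK : pt x v ∈ closure A ∩ closedBall p0 ρ1 := by
    refine ⟨subset_closure hxv, ?_⟩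
    rw [mem_closedBall, dist_eq_norm, hp0, pt_sub]
    refine (norm_pt _ _).trans ?_
    linarith
  have h6 := hqle _ hzK
  rw [hqx', hx'x1, hΨpt, hΨpt] at h6
  exact h6

end KV
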