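import Pool.Agent.Lib.KV.SpecL

set_option autoImplicit false

open Set Filter Topology Metric

namespace KV

open KP

namespace TauCAux

/-- Pointwise convergence from locally uniform convergence. -/
theorem tend {X E : Type} [TopologicalSpace X] [PseudoMetricSpace E] {f : ℕ → X → E} {g : X → E}
    {D : Set X} (hu : ∀ Q ⊆ D, IsCompact Q → TendstoUniformlyOn f g atTop Q) {t : X}
    (ht : t ∈ D) : Tendsto (fun j => f j t) atTop (𝓝 (g t)) :=
  (hu {t} (singleton_subset_iff.2 ht) isCompact_singleton).tendsto_at (mem_singleton t)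

theorem pigeon {α : Type} (S : Finset α) (s : ℕ → α) (hs : ∀ j, s j ∈ S) :
    ∃ a ∈ S, ∃ φ : ℕ → ℕ, StrictMono φ ∧ ∀ j, s (φ j) = a := by
  obtain ⟨a, ha⟩ := Finite.exists_infinite_fiber (fun j => (⟨s j, hs j⟩ : S))
  have h1 : ((fun j => (⟨s j, hs j⟩ : S)) ⁻¹' {a}).Infinite := Set.infinite_coe_iff.1 ha
  obtain ⟨φ, hφ, h2⟩ := extraction_of_frequently_atTop (Nat.frequently_atTop_iff_infinite.2 h1)
  exact ⟨a, a.2, φ, hφ, fun j => congrArg Subtype.val (h2 j)⟩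

end TauCAux

theorem tTauC (h1 : S_CovF) (h2 : S_Taut) : S_TauC := by
  intro N n I U G K hD hC c W hW f g hf hfA hg hu hgW hex
  obtain ⟨t0, ht0, hgt0⟩ := hex
  have hcont : ∀ w ∈ c.W, ContinuousAt c.psi w := fun w hw =>
    c.hpsi.continuousOn.continuousAt (c.hW.mem_nhds hw)
  have hfg : ∀ t ∈ ball (0 : ℂ) 1, Tendsto (fun j => f j t) atTop (𝓝 (g t)) := fun t ht =>
    TauCAux.tend hu ht
  have hpsi : ∀ t ∈ ball (0 : ℂ) 1, Tendsto (fun j => c.psi (f j t)) atTop (𝓝 (c.psi (g t))) :=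
    fun t ht => (hcont (g t) (hW (hgW ht))).tendsto.comp (hfg t ht)
  set q : ℕ → Cn N := fun j => c.psi (f j t0) with hq
  have hqU : ∀ j, q j ∈ U := fun j => (hfA j ht0).2
  have hQc : IsCompact (insert (c.psi (g t0)) (range q)) := (hpsi t0 ht0).isCompact_insert_range
  have hQU : insert (c.psi (g t0)) (range q) ⊆ U := by
    rintro _ (rfl | ⟨j, rfl⟩)
    · exact hgt0.2
    · exact hqU j
  obtain ⟨S, hS, hcov⟩ := h1 N U G K hC _ hQU hQc
  have h3 : ∀ j, ∃ a ∈ S, a (q j) ∈ K := fun j => hcov _ (mem_insert_of_mem _ (mem_range_self j))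
  choose s hs hsK using h3
  obtain ⟨g1, hg1S, φ, hφ, hφs⟩ := TauCAux.pigeon S s hs
  have hg1 : g1 ∈ G := hS g1 hg1S
  obtain ⟨h, hhG, hh1, hh2⟩ := hC.inv g1 hg1
  have hdiff : ∀ j, DifferentiableOn ℂ (fun w : Cn 1 => c.psi (f (φ j) (w 0)))
      (ball (0 : Cn 1) 1) := by
    intro j
    have h4 : DifferentiableOn ℂ (fun w : Cn 1 => f (φ j) (w 0)) (ball (0 : Cn 1) 1) := by
      refine (hf (φ j)).comp (differentiable_apply 0).differentiableOn ?_
      intro w hw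
      rw [mem_ball_zero_iff] at hw ⊢
      exact lt_of_le_of_lt (norm_le_pi_norm w 0) hw
    refine c.hpsi.comp h4 ?_
    intro w hw
    refine (hfA (φ j) ?_).1
    rw [mem_ball_zero_iff] at hw ⊢
    exact lt_of_le_of_lt (norm_le_pi_norm w 0) hw
  have hmaps : ∀ j, MapsTo (fun w : Cn 1 => c.psi (f (φ j) (w 0))) (ball (0 : Cn 1) 1) U := by
    intro j w hw
    refine (hfA (φ j) ?_).2
    rw [mem_ball_zero_iff] at hw ⊢
    exact lt_of_le_of_lt (norm_le_pi_norm w 0) hw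
  have hball : ∀ t ∈ ball (0 : ℂ) 1, (fun _ => t : Cn 1) ∈ ball (0 : Cn 1) 1 := by
    intro t ht
    rw [mem_ball_zero_iff] at ht ⊢
    exact lt_of_le_of_lt (pi_norm_const_le t) ht
  have hA1 : ∀ Q ⊆ ball (0 : Cn 1) 1, IsCompact Q → ∀ᶠ j in atTop, ∃ O : Set (Cn 1), IsOpen O ∧
      Q ⊆ O ∧ DifferentiableOn ℂ (fun w : Cn 1 => g1 (c.psi (f (φ j) (w 0)))) O ∧
      MapsTo (fun w : Cn 1 => g1 (c.psi (f (φ j) (w 0)))) O U := by
    intro Q hQ hQc'
    refine Eventually.of_forall fun j => ⟨ball 0 1, isOpen_ball, hQ, ?_, ?_⟩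
    · exact (holOn_iff isOpen_ball).1 ((hC.hol g1 hg1).comp
        ((holOn_iff isOpen_ball).2 (hdiff j)) (hmaps j))
    · intro w hw
      exact hC.maps g1 hg1 (hmaps j hw)
  have hA2 : ∀ j, g1 (c.psi (f (φ j) ((fun _ => t0 : Cn 1) 0))) ∈ K := by
    intro j
    have h5 := hsK (φ j)
    rw [hφs j] at h5
    exact h5
  obtain ⟨φ', hφ', F', hF', hF'U, hunif⟩ := h2 N n 1 I U G K hD hC (ball 0 1) (fun _ => t0)
    isOpen_ball (convex_ball _ _).isPreconnected (hball t0 ht0)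
    (fun j w => g1 (c.psi (f (φ j) (w 0)))) hA1 hA2
  intro t ht
  refine ⟨hW (hgW ht), ?_⟩
  have e1 : Tendsto (fun j => c.psi (f (φ (φ' j)) t)) atTop (𝓝 (c.psi (g t))) :=
    (hpsi t ht).comp (hφ.tendsto_atTop.comp hφ'.tendsto_atTop)
  have hw := hball t ht
  have e2 : Tendsto (fun j => g1 (c.psi (f (φ (φ' j)) t))) atTop (𝓝 (F' fun _ => t)) :=
    TauCAux.tend hunif hw
  have e3 : Tendsto (fun j => g1 (c.psi (f (φ (φ' j)) t))) atTop (𝓝[U] (F' fun _ => t)) :=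
    tendsto_nhdsWithin_iff.2 ⟨e2, Eventually.of_forall fun j =>
      hC.maps g1 hg1 (hmaps (φ' j) hw)⟩
  have e4 : Tendsto (fun j => h (g1 (c.psi (f (φ (φ' j)) t)))) atTop (𝓝 (h (F' fun _ => t))) :=
    ((hC.hol h hhG).continuousOn (F' fun _ => t) (hF'U hw)).tendsto.comp e3
  have e5 : (fun j => h (g1 (c.psi (f (φ (φ' j)) t)))) = fun j => c.psi (f (φ (φ' j)) t) := by
    funext j
    exact hh1 _ (hmaps (φ' j) hw)
  rw [e5] at e4
  rw [tendsto_nhds_unique e1 e4]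
  exact hC.maps h hhG (hF'U hw)

end KV
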