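import Pool.Agent.Lib.KV.SpecL

set_option autoImplicit false

open Set Filter Topology Metric

namespace KV

open KP

namespace TauSAux

theorem diff_append {m k : ℕ} (z : Cn m) :
    Differentiable ℂ (fun w : Cn k => (Fin.append z w : Cn (m + k))) := by
  refine differentiable_pi.2 fun i => ?_
  refine Fin.addCases (fun i => ?_) (fun i => ?_) i
  · simp only [Fin.append_left]
    exact differentiable_const _
  · simp only [Fin.append_right]
    exact differentiable_apply i

theorem dist_append {m k : ℕ} (z : Cn m) (w w' : Cn k) :
    dist (Fin.append z w : Cn (m + k)) (Fin.append z w') ≤ dist w w' := by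
  refine (dist_pi_le_iff dist_nonneg).2 fun i => ?_
  refine Fin.addCases (fun i => ?_) (fun i => ?_) i
  · simp only [Fin.append_left, dist_self]
    exact dist_nonneg
  · simp only [Fin.append_right]
    exact dist_le_pi_dist w w' i

end TauSAux

theorem tTauS : S_TauS := by
  intro m k A W z hT f g hf hfA hg hu hgW hex
  have h1 := hT (fun j t => Fin.append z (f j t)) (fun t => Fin.append z (g t))
    (fun j => (TauSAux.diff_append z).comp_differentiableOn (hf j)) (fun j => hfA j)
    ((TauSAux.diff_append z).comp_differentiableOn hg) ?_ hgW hex
  · exact h1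
  · intro Q hQ hQc
    have h2 := hu Q hQ hQc
    rw [Metric.tendstoUniformlyOn_iff] at h2 ⊢
    intro ε hε
    filter_upwards [h2 ε hε] with j hj t ht
    exact lt_of_le_of_lt (TauSAux.dist_append z _ _) (hj t ht)

end KV
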