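import Pool.Agent.Lib.KV.SpecL

set_option autoImplicit false

open Set Filter Topology Metric

namespace KV

open KP

namespace WdPAux

private theorem rpl_self {m k : ℕ} (x : Ix m k → ℝ) : rpl x (fun j => x (Sum.inr j)) = x := by
  unfold rpl
  ext s
  cases s <;> rfl

private theorem pt_rpl {m k : ℕ} (x : Ix m k → ℝ) (u v : Ek k) :
    pt (rpl x (fun j => u j)) (fun j => v j) = Fin.append (zof x) (cpt u v) := rfl

private theorem norm_le_sup {k : ℕ} (v : Ek k) (M : ℝ) (hM : 0 ≤ M) (h : ∀ j, |v j| ≤ M) :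
    ‖v‖ ≤ (k + 1) * M := by
  rw [EuclideanSpace.norm_eq]
  have h1 : ∑ i, ‖v i‖ ^ 2 ≤ ((k + 1) * M) ^ 2 := by
    calc ∑ i, ‖v i‖ ^ 2 ≤ ∑ _i : Fin k, M ^ 2 := by
          refine Finset.sum_le_sum fun i _ => ?_
          exact pow_le_pow_left₀ (norm_nonneg _) (h i) 2
      _ = k * M ^ 2 := by
          rw [Finset.sum_const, Finset.card_univ, Fintype.card_fin, nsmul_eq_mul]
      _ ≤ ((k + 1) * M) ^ 2 := by
          rw [mul_pow]
          have hk : (0 : ℝ) ≤ k := Nat.cast_nonneg k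
          have : (k : ℝ) ≤ (k + 1) ^ 2 := by nlinarith
          exact mul_le_mul_of_nonneg_right this (sq_nonneg M)
  exact (Real.sqrt_le_sqrt h1).trans (le_of_eq (Real.sqrt_sq (by positivity)))

end WdPAux

open WdPAux in
theorem tWdP (h1 : S_Sec) (h2 : S_BWh) (h3 : S_BWc) : S_WdP := by
  intro m k A O h hNF hT
  obtain ⟨x2, δ, C, Y, hδ, hC, hO, hY, hYτ, hYt⟩ := h1 m k A O h hNF
  refine ⟨ball x2 δ, hO, isOpen_ball, ⟨x2, mem_ball_self hδ⟩, fun xs hxs => ?_⟩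
  obtain ⟨φ, y, ρ1, R1, ρ2, C', hBW, hφ⟩ :=
    h2 m k A O h hNF hT x2 δ C Y hδ hC hO hY hYτ hYt xs hxs
  obtain ⟨V, c, hc, hV⟩ := h3 k _ _ φ y ρ1 R1 ρ2 C' hBW
  have hk0 : (0 : ℝ) < k + 1 := by positivity
  refine ⟨fun j => V j, c / (k + 1), by positivity, fun τ hτ => ?_⟩
  obtain ⟨θ, hθ, hVθ⟩ := hV τ hτ
  refine ⟨θ, hθ, fun v hv => ?_⟩
  rw [mem_ball, dist_eq_norm, lt_div_iff₀ hk0] at hv
  have e1 : WithLp.toLp 2 v ∈ ball V c := by
    rw [mem_ball, dist_eq_norm]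
    refine (norm_le_sup _ ‖v - fun j => V j‖ (norm_nonneg _) ?_).trans_lt ?_
    · intro j
      exact norm_le_pi_norm (v - fun j => V j) j
    · rw [mul_comm]
      exact hv
  have e2 := hVθ _ e1
  change Fin.append (zof xs) (cpt _ _) ∈ A at e2
  rw [← pt_rpl] at e2
  have e3 : rpl xs (fun j => (WithLp.toLp 2 (fun j => xs (Sum.inr j)) : Ek k) j) = xs :=
    rpl_self xs
  rw [e3] at e2
  have e4 : (fun j => (φ (WithLp.toLp 2 fun j => xs (Sum.inr j)) +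
      θ • (WithLp.toLp 2 v : Ek k)) j) = h xs + θ • v := by
    ext j
    rw [PiLp.add_apply, hφ j, PiLp.smul_apply, Pi.add_apply, Pi.smul_apply]
  rw [e4] at e2
  exact e2

end KV
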